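import Mathlib
import Pool.Agent.W526.LL.Stm

/-! LL-POL: integrality facts in `𝔽₂(T)`. -/

namespace Pool.Agent.W272.LLPOL

open IsDedekindDomain WithZero Polynomial
open Pool.Agent.W526.LL

theorem pol1 (x : KK) (h : ∀ v, Valued.v (cmap (some v) x) ≤ 1) :
    ∃ P : (ZMod 2)[X], x = ofPoly P := by
  have h' : ∀ v : HeightOneSpectrum (ZMod 2)[X], v.valuation KK x ≤ 1 := fun v => by
    rw [← v_fin]; exact h v
  obtain ⟨P, hP⟩ := HeightOneSpectrum.mem_integers_of_valuation_le_one KK x h'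
  exact ⟨P, hP.symm⟩

theorem ofPoly_ne {P : (ZMod 2)[X]} (h : P ≠ 0) : ofPoly P ≠ 0 := by
  intro hh
  exact h ((RatFunc.algebraMap_injective (ZMod 2)) (by rw [map_zero]; exact hh))

theorem v_inf_poly {P : (ZMod 2)[X]} (h : P ≠ 0) :
    Valued.v (cmap none (ofPoly P)) = exp (P.natDegree : ℤ) := by
  rw [v_inf, RatFunc.inftyValuation_of_nonzero _ (ofPoly_ne h), RatFunc.intDegree_polynomial]

theorem v_fin_poly (v : HeightOneSpectrum (ZMod 2)[X]) (P : (ZMod 2)[X]) :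
    Valued.v (cmap (some v) (ofPoly P)) ≤ 1 := by
  rw [v_fin]; exact v.valuation_le_one P

theorem finite_natDegree_le (n : ℕ) : {P : (ZMod 2)[X] | P.natDegree ≤ n}.Finite := by
  let f : (Fin (n + 1) → ZMod 2) → (ZMod 2)[X] := fun c => ∑ i : Fin (n + 1), C (c i) * X ^ (i : ℕ)
  refine (Set.finite_range f).subset ?_
  intro P hP
  refine ⟨fun i => P.coeff i, ?_⟩
  show ∑ i : Fin (n + 1), C (P.coeff i) * X ^ (i : ℕ) = P
  rw [Fin.sum_univ_eq_sum_range (fun i => C (P.coeff i) * X ^ i) (n + 1)]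
  exact (P.as_sum_range_C_mul_X_pow' (Nat.lt_succ_of_le hP)).symm

theorem pol2 (n : ℤ) : {x : KK | (∀ v, Valued.v (cmap (some v) x) ≤ 1) ∧
    Valued.v (cmap none x) ≤ exp n}.Finite := by
  refine ((finite_natDegree_le n.toNat).image ofPoly).subset ?_
  rintro x ⟨h1, h2⟩
  obtain ⟨P, rfl⟩ := pol1 x h1
  refine ⟨P, ?_, rfl⟩
  show P.natDegree ≤ n.toNat
  rcases eq_or_ne P 0 with rfl | hP
  · simp
  rw [v_inf_poly hP, exp_le_exp] at h2
  omega

theorem pol3 (x : KK) (h1 : ∀ v, Valued.v (cmap (some v) x) ≤ 1)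
    (h2 : Valued.v (cmap none x) < 1) : x = 0 := by
  obtain ⟨P, rfl⟩ := pol1 x h1
  by_contra hne
  have hP : P ≠ 0 := by
    rintro rfl
    exact hne (map_zero _)
  rw [v_inf_poly hP, ← exp_zero, exp_lt_exp] at h2
  omega

theorem pol4 (x : KK) (hx : x ≠ 0) :
    {v : HeightOneSpectrum (ZMod 2)[X] | Valued.v (cmap (some v) x) ≠ 1}.Finite := by
  refine ((HeightOneSpectrum.Support.finite (ZMod 2)[X] x).union
    (HeightOneSpectrum.Support.finite (ZMod 2)[X] x⁻¹)).subset ?_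
  intro v hv
  have hv' : v.valuation KK x ≠ 1 := by rw [← v_fin]; exact hv
  rcases lt_or_gt_of_ne hv' with h | h
  · right
    show 1 < v.valuation KK x⁻¹
    rw [map_inv₀]
    exact (one_lt_inv₀ ((Valuation.pos_iff _).mpr hx)).mpr h
  · left
    exact h

theorem exists_pow (v : HeightOneSpectrum (ZMod 2)[X]) (N : ℕ) :
    ∃ d : (ZMod 2)[X], d ≠ 0 ∧ Valued.v (cmap (some v) (ofPoly d)) ≤ exp (-(N : ℤ)) := by
  obtain ⟨a, ha, ha0⟩ := Submodule.exists_mem_ne_zero_of_ne_bot v.ne_bot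
  have h1 : v.valuation KK (ofPoly a) < 1 := (v.valuation_lt_one_iff_mem a).mpr ha
  have h2 : Valued.v (cmap (some v) (ofPoly a)) ≤ exp (-1 : ℤ) := by
    rw [v_fin]
    have hne : v.valuation KK (ofPoly a) ≠ 0 := (Valuation.ne_zero_iff _).mpr (ofPoly_ne ha0)
    rw [← exp_log hne, ← exp_zero, exp_lt_exp] at h1
    rw [← exp_log hne, exp_le_exp]
    omega
  refine ⟨a ^ N, pow_ne_zero _ ha0, ?_⟩
  have e : cmap (some v) (ofPoly (a ^ N)) = cmap (some v) (ofPoly a) ^ N := by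
    simp only [ofPoly, map_pow]
  rw [e, map_pow]
  refine (pow_le_pow_left₀ zero_le h2 N).trans ?_
  rw [← exp_nsmul]
  simp

theorem exists_bound {p : Pl} (y : Kv p) : ∃ N : ℕ, Valued.v y ≤ exp (N : ℤ) := by
  rcases eq_or_ne (Valued.v y) 0 with h | h
  · exact ⟨0, by rw [h]; exact zero_le⟩
  · refine ⟨(log (Valued.v y)).toNat, ?_⟩
    rw [← exp_log h, exp_le_exp, log_exp]
    exact Int.self_le_toNat _

theorem local_den (v : HeightOneSpectrum (ZMod 2)[X]) (g : GL (Fin 2) (Kv (some v))) :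
    ∃ d : (ZMod 2)[X], d ≠ 0 ∧ ∀ i j, Valued.v (cmap (some v) (ofPoly d) * g i j) ≤ 1 := by
  choose N hN using fun ij : Fin 2 × Fin 2 => exists_bound (g ij.1 ij.2)
  obtain ⟨d, hd, hdv⟩ := exists_pow v (∑ ij, N ij)
  refine ⟨d, hd, fun i j => ?_⟩
  rw [map_mul]
  refine (mul_le_mul' hdv (hN (i, j))).trans ?_
  rw [← exp_add, ← exp_zero, exp_le_exp]
  have : N (i, j) ≤ ∑ ij, N ij := Finset.single_le_sum (fun _ _ => Nat.zero_le _) (Finset.mem_univ _)
  omega

theorem pol5 (g : GA) : ∃ d : (ZMod 2)[X], d ≠ 0 ∧ ∀ v i j,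
    Valued.v (cmap (some v) (ofPoly d) * g (some v) i j) ≤ 1 := by
  classical
  have hfin : {p : Pl | ¬ g p ∈ (maxK (Kv p) : Set (GL (Fin 2) (Kv p)))}.Finite :=
    Filter.mem_cofinite.mp g.2
  have hfin2 : {v : HeightOneSpectrum (ZMod 2)[X] | ¬ g (some v) ∈ maxK (Kv (some v))}.Finite :=
    hfin.preimage (f := some) (fun _ _ _ _ h => Option.some.inj h)
  choose e he hev using fun v => local_den v (g (some v))
  refine ⟨∏ v ∈ hfin2.toFinset, e v, Finset.prod_ne_zero_iff.mpr fun v _ => he v, ?_⟩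
  intro v i j
  by_cases hv : g (some v) ∈ maxK (Kv (some v))
  · rw [map_mul]
    exact mul_le_one' (v_fin_poly v _) (hv.1 i j)
  · have hm : v ∈ hfin2.toFinset := by simpa using hv
    have e1 : cmap (some v) (ofPoly (∏ v ∈ hfin2.toFinset, e v)) * g (some v) i j =
        (cmap (some v) (ofPoly (e v)) * g (some v) i j) *
          cmap (some v) (ofPoly (∏ x ∈ hfin2.toFinset.erase v, e x)) := by
      have e2 : ofPoly (∏ v ∈ hfin2.toFinset, e v) =
          ofPoly (e v) * ofPoly (∏ x ∈ hfin2.toFinset.erase v, e x) := by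
        rw [← Finset.mul_prod_erase _ _ hm]
        exact map_mul (algebraMap (ZMod 2)[X] KK) _ _
      rw [e2, (cmap (some v)).map_mul]
      ring
    rw [e1, Valued.v.map_mul]
    exact mul_le_one' (hev v i j) (v_fin_poly v _)

theorem main : S_pol := ⟨pol1, pol2, pol3, pol4, pol5⟩

end Pool.Agent.W272.LLPOL
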