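import Mathlib
import Pool.Agent.W526.LL.Stm

/-! LL-TRIV: the trivial representation is isobaric. -/

namespace Pool.Agent.W272.LLTRIV

open IsDedekindDomain WithZero Polynomial Topology
open Pool.Agent.W526.LL

theorem one_act {G : Type} [Group G] (g : G) (v : ℂ) : (1 : Representation ℂ G ℂ) g v = v := rfl

theorem irr_one {G : Type} [Group G] : IsIrr (1 : Representation ℂ G ℂ) :=
  ⟨⟨1, one_ne_zero⟩, fun P _ => eq_bot_or_eq_top P⟩

theorem comp (p : Pl) (tau : SmIrr (GL (Fin 2) (Kv p))) (h : ∀ g v, tau.ρ g v = v) :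
    IsComp (1 : Representation ℂ GA ℂ) p tau := by
  obtain ⟨v0, hv0⟩ := tau.irr.1
  obtain ⟨f, hf⟩ : ∃ f : Module.Dual ℂ tau.V, f v0 ≠ 0 := by
    by_contra hcon
    push Not at hcon
    exact hv0 ((Module.forall_dual_apply_eq_zero_iff ℂ v0).mp hcon)
  unfold IsComp
  rw [eq_top_iff]
  intro z _
  have hz : z = (z / f v0) • f v0 := by
    rw [smul_eq_mul, div_mul_cancel₀ _ hf]
  rw [hz]
  refine Submodule.smul_mem _ _ (Submodule.subset_span ⟨f, fun g v => ?_, v0, rfl⟩)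
  rw [h]; rfl

/-- constant functions -/
def cst (X : Type) : ℂ →ₗ[ℂ] (X → ℂ) where
  toFun c := fun _ => c
  map_add' _ _ := rfl
  map_smul' _ _ := rfl

theorem rt_cst {G : Type} [Group G] (g : G) (c : ℂ) : rt G g (cst G c) = cst G c := rfl

theorem autForm_cst (c : ℂ) : IsAutForm (cst GA c) := by
  refine ⟨fun _ _ _ _ => rfl, ⟨⊤, isOpen_univ, fun _ _ _ => rfl⟩, none, fun U _ => ?_⟩
  have h1 : fixedIn none U (locSpan none (cst GA c)) ≤ LinearMap.range (cst GA) := by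
    intro F hF
    have hF' : F ∈ locSpan none (cst GA c) := hF.1
    refine (Submodule.span_le (p := LinearMap.range (cst GA))).mpr ?_ hF'
    rintro _ ⟨h, rfl⟩
    exact ⟨c, rfl⟩
  exact Submodule.finiteDimensional_of_le h1

theorem aut_one : IsAutRep (1 : Representation ℂ GA ℂ) := by
  refine ⟨irr_one, LinearMap.range (cst GA), ?_, ?_, ?_⟩
  · rintro _ ⟨c, rfl⟩
    exact autForm_cst c
  · rintro g _ ⟨c, rfl⟩
    exact ⟨c, rfl⟩
  · refine ⟨(LinearMap.proj (1 : GA)) ∘ₗ (LinearMap.range (cst GA)).subtype, ?_, ?_⟩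
    · intro c
      exact ⟨⟨cst GA c, c, rfl⟩, rfl⟩
    · rintro g ⟨_, c, rfl⟩
      rfl

/-- the trivial representation of `GL₂(K_p)` -/
noncomputable def trivIrr (p : Pl) : SmIrr (GL (Fin 2) (Kv p)) where
  V := ℂ
  ρ := 1
  smooth := fun _ => ⟨⊤, isOpen_univ, fun _ _ => rfl⟩
  irr := irr_one

theorem nrm_nonneg (p : Pl) (x : (Kv p)ˣ) : 0 ≤ nrm p x := by
  unfold nrm; positivity

theorem nrm_pos (hN : S_norm) (p : Pl) (x : (Kv p)ˣ) : 0 < nrm p x := by
  obtain ⟨N, hN⟩ := hN 1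
  have h := hN p x
  rw [Real.rpow_one] at h
  refine lt_of_le_of_ne (nrm_nonneg p x) fun h0 => ?_
  rw [← h0] at h
  exact (N.χ p x).ne_zero (by rw [h]; simp)

theorem main : S_triv := by
  intro hN
  obtain ⟨N1, h1⟩ := hN (1 / 2)
  obtain ⟨N2, h2⟩ := hN (-(1 / 2))
  refine Or.inr ⟨aut_one, N1, N2, 1, zero_le_one, ?_, ?_⟩
  · intro p x
    have hp := nrm_pos hN p x
    rw [h1, h2, Complex.norm_real, Complex.norm_real, Real.norm_of_nonneg (by positivity),
      Real.norm_of_nonneg (by positivity), ← Real.rpow_add hp]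
    norm_num
  · intro p
    refine ⟨trivIrr p, comp p _ (fun _ _ => rfl), cst _, ?_, ?_, ?_⟩
    · intro a b hab
      exact congrFun hab 1
    · intro c
      refine ⟨⟨⊤, isOpen_univ, fun _ _ _ => rfl⟩, fun a d b g => ?_⟩
      have hp := nrm_pos hN p a
      have e1 : ((N1.χ p (a / d) : ℂˣ) : ℂ) = (N1.χ p a : ℂ) / (N1.χ p d : ℂ) := by
        rw [_root_.map_div]; exact Units.val_div_eq_div_val _ _
      have e2 : (N2.χ p a : ℂ) * (N1.χ p a : ℂ) = 1 := by
        rw [h1, h2, ← Complex.ofReal_mul, ← Real.rpow_add hp]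
        norm_num
      have e3 : (N1.χ p d : ℂ) ≠ 0 := (N1.χ p d).ne_zero
      have e4 : (N2.χ p a : ℂ) * (N1.χ p d : ℂ) * (((nrm p (a / d)) ^ (1 / 2 : ℝ) : ℝ) : ℂ) = 1 := by
        rw [← h1 p (a / d), e1]
        have : (N2.χ p a : ℂ) * (N1.χ p d : ℂ) * ((N1.χ p a : ℂ) / (N1.χ p d : ℂ)) =
            (N2.χ p a : ℂ) * (N1.χ p a : ℂ) := by
          field_simp
        rw [this, e2]
      show c = _
      rw [e4, one_mul]
      rfl
    · intro g v
      rfl

end Pool.Agent.W272.LLTRIV
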