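import Pool.Agent.W106.HT.Stm

/-! HT-CLASS: trees with small entropy. -/

set_option autoImplicit false

namespace Pool.Agent.W272.HTCLASS

open Pool.Agent.W106.HT

theorem RIso.refl (A : BT) : RIso A A := ⟨SimpleGraph.Iso.refl, rfl⟩

theorem RIso.symm {A B : BT} (h : RIso A B) : RIso B A := by
  obtain ⟨e, he⟩ := h
  exact ⟨e.symm, by rw [← he]; exact e.symm_apply_apply _⟩

theorem RIso.trans {A B C : BT} (h : RIso A B) (h' : RIso B C) : RIso A C := by
  obtain ⟨e, he⟩ := h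
  obtain ⟨f, hf⟩ := h'
  exact ⟨e.trans f, by show f (e A.root) = _; rw [he, hf]⟩

theorem RIso.att {a a' b b' : BT} (h : RIso a a') (h' : RIso b b') :
    RIso (BT.att a b) (BT.att a' b') := by
  obtain ⟨e, he⟩ := h
  obtain ⟨f, hf⟩ := h'
  have hee : ∀ x, e x = a'.root ↔ x = a.root := fun x => by rw [← he, e.injective.eq_iff]
  have hff : ∀ x, f x = b'.root ↔ x = b.root := fun x => by rw [← hf, f.injective.eq_iff]
  refine ⟨{ toEquiv := Equiv.sumCongr e.toEquiv f.toEquiv, map_rel_iff' := ?_ }, ?_⟩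
  · rintro (x | x) (y | y)
    · exact e.map_rel_iff
    · exact and_congr (hee x) (hff y)
    · exact and_congr (hff x) (hee y)
    · exact f.map_rel_iff
  · show Sum.inl (e a.root) = Sum.inl a'.root
    rw [he]

theorem inl_root {a b : BT} (x : a.V) :
    ((Sum.inl x : (BT.att a b).V) = (BT.att a b).root) ↔ x = a.root :=
  ⟨fun h => Sum.inl.inj h, fun h => congrArg Sum.inl h⟩

theorem inr_root {a b : BT} (x : b.V) :
    ((Sum.inr x : (BT.att a b).V) = (BT.att a b).root) ↔ False :=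
  ⟨fun h => Sum.inr_ne_inl h, False.elim⟩

/-- the underlying bijection -/
def swapE (X Y Z : Type) : (X ⊕ Y) ⊕ Z ≃ (X ⊕ Z) ⊕ Y :=
  (Equiv.sumAssoc X Y Z).trans
    ((Equiv.sumCongr (Equiv.refl X) (Equiv.sumComm Y Z)).trans (Equiv.sumAssoc X Z Y).symm)

theorem RIso.swap (a b c : BT) : RIso (BT.att (BT.att a b) c) (BT.att (BT.att a c) b) := by
  refine ⟨{ toEquiv := swapE a.V b.V c.V, map_rel_iff' := ?_ }, rfl⟩
  rintro ((x | x) | x) ((y | y) | y)
  · exact Iff.rfl
  · show ((Sum.inl x : (BT.att a c).V) = (BT.att a c).root ∧ y = b.root) ↔ (x = a.root ∧ y = b.root)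
    rw [inl_root]
  · show (x = a.root ∧ y = c.root) ↔
      ((Sum.inl x : (BT.att a b).V) = (BT.att a b).root ∧ y = c.root)
    rw [inl_root]
  · show (x = b.root ∧ (Sum.inl y : (BT.att a c).V) = (BT.att a c).root) ↔
      (x = b.root ∧ y = a.root)
    rw [inl_root]
  · exact Iff.rfl
  · show (x = b.root ∧ (Sum.inr y : (BT.att a c).V) = (BT.att a c).root) ↔
      ((Sum.inr x : (BT.att a b).V) = (BT.att a b).root ∧ y = c.root)
    rw [inr_root, inr_root]; tauto
  · show (x = c.root ∧ y = a.root) ↔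
      (x = c.root ∧ (Sum.inl y : (BT.att a b).V) = (BT.att a b).root)
    rw [inl_root]
  · show ((Sum.inr x : (BT.att a c).V) = (BT.att a c).root ∧ y = b.root) ↔
      (x = c.root ∧ (Sum.inr y : (BT.att a b).V) = (BT.att a b).root)
    rw [inr_root, inr_root]; tauto
  · exact Iff.rfl

theorem pow_le_aux (m : ℕ) (hm : 1 ≤ m) : 4 ^ m ≤ 4 * m ^ m := by
  rcases Nat.lt_or_ge m 4 with h | h
  · interval_cases m <;> norm_num
  · calc 4 ^ m ≤ m ^ m := Nat.pow_le_pow_left h m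
      _ ≤ 4 * m ^ m := by omega

theorem low (t : BT) : 4 ^ t.size ≤ 4 ^ (nch t + 1) * ent t ∧ 4 ^ t.size ≤ 4 * entf t := by
  induction t with
  | pt => simp [BT.size, nch, ent, entf]
  | att a b iha ihb =>
    have h1 : 4 ^ (BT.att a b).size ≤ 4 ^ (nch (BT.att a b) + 1) * ent (BT.att a b) := by
      calc 4 ^ (BT.att a b).size = 4 ^ a.size * 4 ^ b.size := by rw [← pow_add]; rfl
        _ ≤ (4 ^ (nch a + 1) * ent a) * (4 * entf b) := Nat.mul_le_mul iha.1 ihb.2
        _ = 4 ^ (nch (BT.att a b) + 1) * ent (BT.att a b) := by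
          simp only [nch, ent, entf]; ring
    refine ⟨h1, h1.trans ?_⟩
    have h2 := pow_le_aux (nch (BT.att a b) + 1) (by omega)
    calc 4 ^ (nch (BT.att a b) + 1) * ent (BT.att a b)
        ≤ (4 * (nch (BT.att a b) + 1) ^ (nch (BT.att a b) + 1)) * ent (BT.att a b) :=
          Nat.mul_le_mul_right _ h2
      _ = 4 * entf (BT.att a b) := by simp only [entf]; ring

theorem big (a b : BT) (h : 2 ≤ nch a) : 4 ^ (BT.att a b).size ≤ entf (BT.att a b) := by
  have h1 := (low a).1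
  have h2 := (low b).2
  calc 4 ^ (BT.att a b).size = 4 ^ a.size * 4 ^ b.size := by rw [← pow_add]; rfl
    _ ≤ (4 ^ (nch a + 1) * ent a) * (4 * entf b) := Nat.mul_le_mul h1 h2
    _ = 4 ^ (nch a + 2) * (ent a * entf b) := by ring
    _ ≤ (nch a + 2) ^ (nch a + 2) * (ent a * entf b) :=
        Nat.mul_le_mul_right _ (Nat.pow_le_pow_left (by omega) _)
    _ = entf (BT.att a b) := by simp only [nch, ent, entf]; ring

theorem entf_pt (b : BT) : entf (BT.att .pt b) = 4 * entf b := by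
  simp only [entf, ent, nch]; ring

theorem size_pt (b : BT) : 4 ^ (BT.att .pt b).size = 4 * 4 ^ b.size := by
  simp only [BT.size]; ring

theorem entf_node (A B : BT) : entf (node2 A B) = 27 * (entf A * entf B) := by
  simp only [node2, entf, ent, nch]; ring

theorem size_node (A B : BT) : 4 ^ (node2 A B).size = 4 * (4 ^ A.size * 4 ^ B.size) := by
  simp only [node2, BT.size]; ring

/-- second form -/
def F2 (τ : BT) : Prop := ∃ l i j, RIso τ (ch l (node2 (ch i .pt) (ch j .pt)))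

/-- third form -/
def F3 (τ : BT) : Prop :=
  ∃ l i l' j h, RIso τ (ch l (node2 (ch i .pt) (ch l' (node2 (ch j .pt) (ch h .pt)))))

/-- The statement of the induction. -/
def PP (τ : BT) : Prop := 4 ^ τ.size ≤ entf τ ∨
  ((∃ k, RIso τ (ch k .pt)) ∧ 4 * entf τ = 4 ^ τ.size) ∨
  (F2 τ ∧ 64 * entf τ = 27 * 4 ^ τ.size) ∨
  (F3 τ ∧ 1024 * entf τ = 729 * 4 ^ τ.size)

theorem swap_node (A B : BT) : RIso (node2 A B) (node2 B A) := RIso.swap _ _ _

theorem PP_node_chain (A B : BT) (hA : ∃ k, RIso A (ch k .pt)) (hA' : 4 * entf A = 4 ^ A.size)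
    (hB : PP B) : PP (node2 A B) := by
  obtain ⟨k, hk⟩ := hA
  unfold PP
  rw [entf_node, size_node]
  have key : 729 * 4 ^ B.size ≤ 1024 * entf B →
      4 * (4 ^ A.size * 4 ^ B.size) ≤ 27 * (entf A * entf B) := by
    intro h
    rw [← hA']
    have h2 : entf A * (729 * 4 ^ B.size) ≤ entf A * (1024 * entf B) := Nat.mul_le_mul_left _ h
    nlinarith
  rcases hB with h | ⟨⟨k', hk'⟩, h⟩ | ⟨⟨l, i, j, hl⟩, h⟩ | ⟨_, h⟩
  · left; exact key (by omega)
  · right; right; left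
    refine ⟨⟨0, k, k', ?_⟩, ?_⟩
    · exact RIso.att (RIso.att (RIso.refl _) hk) hk'
    · rw [← hA', ← h]; ring
  · right; right; right
    refine ⟨⟨0, k, l, i, j, ?_⟩, ?_⟩
    · exact RIso.att (RIso.att (RIso.refl _) hk) hl
    · have : 1024 * (27 * (entf A * entf B)) = 27 * 4 * (4 * entf A) * (64 * entf B) := by ring
      rw [this, hA', h]; ring
  · left; exact key (by omega)

theorem PP_of_riso {A B : BT} (h : RIso A B) (h1 : entf A = entf B) (h2 : 4 ^ A.size = 4 ^ B.size)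
    (hB : PP B) : PP A := by
  unfold PP at hB ⊢
  rw [h1, h2]
  rcases hB with h' | ⟨⟨k', hk'⟩, h'⟩ | ⟨⟨l, i, j, hl⟩, h'⟩ | ⟨⟨l, i, l', j, m, hl⟩, h'⟩
  · exact Or.inl h'
  · exact Or.inr (Or.inl ⟨⟨k', RIso.trans h hk'⟩, h'⟩)
  · exact Or.inr (Or.inr (Or.inl ⟨⟨l, i, j, RIso.trans h hl⟩, h'⟩))
  · exact Or.inr (Or.inr (Or.inr ⟨⟨l, i, l', j, m, RIso.trans h hl⟩, h'⟩))

theorem notchain {A : BT} (hA : PP A) :
    ((∃ k, RIso A (ch k .pt)) ∧ 4 * entf A = 4 ^ A.size) ∨ 27 * 4 ^ A.size ≤ 64 * entf A := by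
  rcases hA with h | h | ⟨_, h⟩ | ⟨_, h⟩
  · right; omega
  · left; exact h
  · right; omega
  · right; omega

theorem PP_node (A B : BT) (hA : PP A) (hB : PP B) : PP (node2 A B) := by
  rcases notchain hA with ⟨h1, h2⟩ | h
  · exact PP_node_chain A B h1 h2 hB
  rcases notchain hB with ⟨h1, h2⟩ | h'
  · refine PP_of_riso (swap_node A B) ?_ ?_ (PP_node_chain B A h1 h2 hA)
    · rw [entf_node, entf_node]; ring
    · rw [size_node, size_node]; ring
  · left
    rw [entf_node, size_node]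
    have := Nat.mul_le_mul h h'
    nlinarith

theorem PP_pt (b : BT) (ihb : PP b) : PP (BT.att .pt b) := by
  unfold PP at ihb ⊢
  rw [entf_pt, size_pt]
  rcases ihb with h | ⟨⟨k, hk⟩, h⟩ | ⟨⟨l, i, j, hl⟩, h⟩ | ⟨⟨l, i, l', j, m, hl⟩, h⟩
  · left; omega
  · right; left
    exact ⟨⟨k + 1, RIso.att (RIso.refl _) hk⟩, by omega⟩
  · right; right; left
    exact ⟨⟨l + 1, i, j, RIso.att (RIso.refl _) hl⟩, by omega⟩
  · right; right; right
    exact ⟨⟨l + 1, i, l', j, m, RIso.att (RIso.refl _) hl⟩, by omega⟩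

theorem all : ∀ τ : BT, PP τ
  | .pt => Or.inr (Or.inl ⟨⟨0, RIso.refl _⟩, by simp [entf, ent, nch, BT.size]⟩)
  | .att .pt b => PP_pt b (all b)
  | .att (.att .pt A) B => PP_node A B (all A) (all B)
  | .att (.att (.att x y) A) B => Or.inl (big _ _ (by simp only [nch]; omega))

theorem classify : S_class := by
  intro τ
  rcases all τ with h | ⟨h, _⟩ | ⟨h, _⟩ | ⟨h, _⟩
  · exact Or.inl h
  · exact Or.inr (Or.inl h)
  · exact Or.inr (Or.inr (Or.inl h))
  · exact Or.inr (Or.inr (Or.inr h))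

end Pool.Agent.W272.HTCLASS
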