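import Pool.Agent.W106.HT.Stm

/-! HT-LINK: the vectors `vA`, `vD`. -/

set_option autoImplicit false

namespace Pool.Agent.W272.HTLINK

open Pool.Agent.W106.HT Finset

theorem shift (f : ℕ → ℝ) (n : ℕ) : ∑ i ∈ range n, f (i + 1) = ∑ i ∈ Icc 1 n, f i := by
  induction n with
  | zero => simp
  | succ n ih => rw [Finset.sum_range_succ, ih, Finset.sum_Icc_succ_top (by omega)]

theorem hv_att_real {W : Type} [Fintype W] (G : SimpleGraph W) (a b : BT) (x : W) (F : W → ℝ)
    (h1 : ∀ y, G.Adj x y → (hv G b y : ℝ) = F y) (h0 : ∀ y, ¬ G.Adj x y → F y = 0) :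
    (hv G (.att a b) x : ℝ) = hv G a x * ∑ y, F y := by
  have : hv G (.att a b) x = hv G a x * ∑ y, @ite ℕ (G.Adj x y) (Classical.propDecidable _)
      (hv G b y) 0 := rfl
  rw [this]
  push_cast
  congr 1
  refine Finset.sum_congr rfl fun y _ => ?_
  by_cases h : G.Adj x y
  · rw [if_pos h]; exact h1 y h
  · rw [if_neg h, h0 y h]

theorem vA_zero (n : ℕ) (t : BT) (i : ℕ) (hi : i = 0 ∨ n < i) : vA n t i = 0 := by
  induction t with
  | pt => exact if_neg (by omega)
  | att a b iha _ => show vA n a i * _ = 0; rw [iha, zero_mul]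

theorem vD_zero (n : ℕ) (t : BT) (i : ℕ) (hi : i = 0 ∨ n - 1 < i) : vD n t i = 0 := by
  induction t with
  | pt => exact if_neg (by omega)
  | att a b iha _ => show vD n a i * _ = 0; rw [iha, zero_mul]

theorem sumite (n c : ℕ) (v : ℝ) (hv : ¬ c < n → v = 0) :
    ∑ y ∈ range n, (if y = c then v else 0) = v := by
  rw [Finset.sum_ite_eq']
  split_ifs with h
  · rfl
  · exact (hv (by simpa using h)).symm

theorem hvA (n : ℕ) (t : BT) : ∀ i : Fin n,
    (hv (SimpleGraph.pathGraph n) t i : ℝ) = vA n t (i.val + 1) := by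
  induction t with
  | pt =>
    intro i
    have h : 1 ≤ i.val + 1 ∧ i.val + 1 ≤ n := by omega
    show ((1 : ℕ) : ℝ) = if _ then _ else _
    rw [if_pos h]; simp
  | att a b iha ihb =>
    intro i
    rw [hv_att_real _ a b i (fun y => (if y.val = i.val + 1 then vA n b (i.val + 2) else 0) +
      (if y.val + 1 = i.val then vA n b i.val else 0)), iha]
    · show vA n a (i.val + 1) * _ = vA n a (i.val + 1) * plA n (vA n b) (i.val + 1)
      congr 1
      have hpl : plA n (vA n b) (i.val + 1) = vA n b i.val + vA n b (i.val + 2) := by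
        unfold plA
        rw [if_pos (by omega)]
        simp
      rw [hpl, Finset.sum_add_distrib, add_comm]
      congr 1
      · rw [Fin.sum_univ_eq_sum_range (fun y => if y + 1 = i.val then vA n b i.val else 0) n]
        rcases Nat.eq_zero_or_pos i.val with h0 | h0
        · rw [h0, vA_zero n b 0 (Or.inl rfl)]
          simp
        · rw [← sumite n (i.val - 1) (vA n b i.val) (by omega)]
          refine Finset.sum_congr rfl fun y _ => ?_
          by_cases h : y + 1 = i.val
          · rw [if_pos h, if_pos (by omega)]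
            exact (sumite n (i.val - 1) _ (by omega)).symm ▸ rfl
          · rw [if_neg h, if_neg (by omega)]
      · rw [Fin.sum_univ_eq_sum_range (fun y => if y = i.val + 1 then vA n b (i.val + 2) else 0) n]
        exact sumite n _ _ (fun h => vA_zero n b _ (Or.inr (by omega)))
    · intro y hy
      rw [SimpleGraph.pathGraph_adj] at hy
      rw [ihb]
      rcases hy with h | h
      · rw [if_pos h.symm, if_neg (by omega), add_zero, ← h]
      · rw [if_neg (by omega), if_pos h, zero_add, h]
    · intro y hy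
      rw [SimpleGraph.pathGraph_adj] at hy
      push Not at hy
      rw [if_neg (by omega), if_neg (by omega), add_zero]

/-- adjacency in `Dg n` on the natural numbers -/
def AD (x y : ℕ) : Prop := x ≠ y ∧ (((x = 0 ∧ y = 2) ∨ (x = 1 ∧ y = 2) ∨ (2 ≤ x ∧ y = x + 1)) ∨
  ((y = 0 ∧ x = 2) ∨ (y = 1 ∧ x = 2) ∨ (2 ≤ y ∧ x = y + 1)))

theorem adj_iff (n : ℕ) (x y : Fin n) : (Dg n).Adj x y ↔ AD x.val y.val := by
  unfold Dg AD
  rw [SimpleGraph.fromRel_adj]
  rw [ne_eq, Fin.ext_iff]

/-- the neighbour terms -/
noncomputable def FT (g : ℕ → ℝ) (x y : ℕ) : ℝ :=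
  if x ≤ 1 then (if y = 2 then g 2 else 0) else
    if x = 2 then (if y = 0 then g 1 else 0) + (if y = 1 then g 1 else 0) +
      (if y = 3 then g 3 else 0)
    else (if y = x - 1 then g (x - 1) else 0) + (if y = x + 1 then g (x + 1) else 0)

theorem FT_adj (g : ℕ → ℝ) (x y : ℕ) (h : AD x y) : g (max 1 y) = FT g x y := by
  unfold AD at h
  unfold FT
  rcases Nat.lt_trichotomy x 2 with hx | hx | hx
  · rw [if_pos (by omega), if_pos (by omega)]
    have : y = 2 := by omega
    rw [this]; rfl
  · rw [if_neg (by omega), if_pos hx]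
    have : y = 0 ∨ y = 1 ∨ y = 3 := by omega
    rcases this with rfl | rfl | rfl <;> simp
  · rw [if_neg (by omega), if_neg (by omega)]
    have : y = x - 1 ∨ y = x + 1 := by omega
    rcases this with hy | hy
    · rw [if_pos hy, if_neg (by omega), add_zero, hy, Nat.max_eq_right (by omega)]
    · rw [if_neg (by omega), if_pos hy, zero_add, hy, Nat.max_eq_right (by omega)]

theorem FT_nadj (g : ℕ → ℝ) (x y : ℕ) (h : ¬ AD x y) : FT g x y = 0 := by
  unfold AD at h
  unfold FT
  rcases Nat.lt_trichotomy x 2 with hx | hx | hx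
  · rw [if_pos (by omega), if_neg (by omega)]
  · rw [if_neg (by omega), if_pos hx, if_neg (by omega), if_neg (by omega), if_neg (by omega)]
    simp
  · rw [if_neg (by omega), if_neg (by omega), if_neg (by omega), if_neg (by omega)]
    simp

theorem FT_sum (n : ℕ) (hn : 6 ≤ n) (g : ℕ → ℝ) (hg : ∀ i, n - 1 < i → g i = 0) (x : ℕ)
    (hx : x < n) : ∑ y ∈ range n, FT g x y = plD n g (max 1 x) := by
  unfold FT plD
  rcases Nat.lt_trichotomy x 2 with hx2 | hx2 | hx2
  · have e : max 1 x = 1 := by omega
    rw [e, if_neg (by omega), if_pos rfl]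
    simp only [if_pos (show x ≤ 1 by omega)]
    exact sumite n 2 _ (fun h => by omega)
  · have e : max 1 x = 2 := by omega
    rw [e, if_neg (by omega), if_neg (by omega), if_pos rfl]
    simp only [if_neg (show ¬ x ≤ 1 by omega), if_pos hx2]
    rw [Finset.sum_add_distrib, Finset.sum_add_distrib, sumite n 0 _ (fun h => by omega),
      sumite n 1 _ (fun h => by omega), sumite n 3 _ (fun h => by omega)]
    ring
  · have e : max 1 x = x := by omega
    rw [e, if_neg (by omega), if_neg (by omega), if_neg (by omega), if_pos (by omega)]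
    simp only [if_neg (show ¬ x ≤ 1 by omega), if_neg (show ¬ x = 2 by omega)]
    rw [Finset.sum_add_distrib, sumite n (x - 1) _ (fun h => by omega),
      sumite n (x + 1) _ (fun h => hg _ (by omega))]

theorem hvD (n : ℕ) (hn : 6 ≤ n) (t : BT) : ∀ i : Fin n,
    (hv (Dg n) t i : ℝ) = vD n t (max 1 i.val) := by
  induction t with
  | pt =>
    intro i
    have h : 1 ≤ max 1 i.val ∧ max 1 i.val ≤ n - 1 := by omega
    show ((1 : ℕ) : ℝ) = if _ then _ else _
    rw [if_pos h]; simp
  | att a b iha ihb =>
    intro i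
    rw [hv_att_real _ a b i (fun y => FT (vD n b) i.val y.val), iha]
    · show vD n a (max 1 i.val) * _ = vD n a (max 1 i.val) * plD n (vD n b) (max 1 i.val)
      congr 1
      rw [Fin.sum_univ_eq_sum_range (fun y => FT (vD n b) i.val y) n]
      exact FT_sum n hn _ (fun j hj => vD_zero n b j (Or.inr hj)) _ i.isLt
    · intro y hy
      rw [adj_iff] at hy
      rw [ihb]
      exact FT_adj _ _ _ hy
    · intro y hy
      rw [adj_iff] at hy
      exact FT_nadj _ _ _ hy

theorem link : S_link := by
  intro n hn t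
  constructor
  · unfold tot sumA
    push_cast
    rw [Finset.sum_congr rfl (fun i _ => hvA n t i),
      Fin.sum_univ_eq_sum_range (fun i => vA n t (i + 1)) n, shift (vA n t) n]
  · unfold tot sumD
    push_cast
    rw [Finset.sum_congr rfl (fun i _ => hvD n hn t i),
      Fin.sum_univ_eq_sum_range (fun i => vD n t (max 1 i)) n]
    obtain ⟨m, rfl⟩ : ∃ m, n = m + 1 := ⟨n - 1, by omega⟩
    rw [Finset.sum_range_succ', add_comm]
    congr 1
    rw [Nat.add_sub_cancel, ← shift]
    refine Finset.sum_congr rfl fun i _ => ?_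
    rw [Nat.max_eq_right (by omega)]

end Pool.Agent.W272.HTLINK
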