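import Pool.Agent.W106.HT.Stm
import Pool.Agent.W272.HTLINK

/-! HT-PUB: upper bounds for the path. -/

set_option autoImplicit false

namespace Pool.Agent.W272.HTPUB

open Pool.Agent.W106.HT Finset Pool.Agent.W272.HTLINK

theorem totA (n : ℕ) (t : BT) : (tot (SimpleGraph.pathGraph n) t : ℝ) = sumA n (vA n t) := by
  unfold tot sumA
  push_cast
  rw [Finset.sum_congr rfl (fun i _ => hvA n t i),
    Fin.sum_univ_eq_sum_range (fun i => vA n t (i + 1)) n, shift (vA n t) n]

theorem size_pos (t : BT) : 1 ≤ t.size := by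
  induction t with
  | pt => exact le_refl _
  | att a b iha ihb => simp only [BT.size]; omega

/-- `2 ^ (size - 1)` -/
noncomputable def nn (t : BT) : ℝ := 2 ^ (t.size - 1)

theorem nn_pt : nn .pt = 1 := by simp [nn, BT.size]

theorem nn_att (a b : BT) : nn (.att a b) = 2 * nn a * nn b := by
  have ha := size_pos a
  have hb := size_pos b
  unfold nn
  have : (BT.att a b).size - 1 = (a.size - 1) + (b.size - 1) + 1 := by
    simp only [BT.size]; omega
  rw [this, pow_succ, pow_add]
  ring

theorem nn_pos (t : BT) : 0 < nn t := by unfold nn; positivity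

theorem nn_ge_one (t : BT) : 1 ≤ nn t := one_le_pow₀ (by norm_num)

theorem nn_ge_two (t : BT) (h : t ≠ .pt) : 2 ≤ nn t := by
  cases t with
  | pt => exact absurd rfl h
  | att a b =>
    rw [nn_att]
    have := nn_ge_one a
    have := nn_ge_one b
    nlinarith

theorem vA_att (n : ℕ) (a b : BT) (i : ℕ) :
    vA n (.att a b) i = vA n a i * plA n (vA n b) i := rfl

theorem plA_in {n : ℕ} (a : ℕ → ℝ) {i : ℕ} (h1 : 1 ≤ i) (h2 : i ≤ n) :
    plA n a i = a (i - 1) + a (i + 1) := if_pos ⟨h1, h2⟩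

theorem vA_nonneg (n : ℕ) (t : BT) : ∀ i, 0 ≤ vA n t i := by
  induction t with
  | pt => intro i; show 0 ≤ if _ then (1 : ℝ) else 0; split_ifs <;> norm_num
  | att a b iha ihb =>
    intro i
    rw [vA_att]
    refine mul_nonneg (iha i) ?_
    unfold plA
    split_ifs
    · exact add_nonneg (ihb _) (ihb _)
    · exact le_refl _

theorem vA_ge_one (n : ℕ) (hn : 2 ≤ n) (t : BT) : ∀ i, 1 ≤ i → i ≤ n → 1 ≤ vA n t i := by
  induction t with
  | pt => intro i h1 h2; show (1 : ℝ) ≤ if _ then (1 : ℝ) else 0; rw [if_pos ⟨h1, h2⟩]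
  | att a b iha ihb =>
    intro i h1 h2
    rw [vA_att, plA_in _ h1 h2]
    have h3 : 1 ≤ vA n b (i - 1) + vA n b (i + 1) := by
      have e1 := vA_nonneg n b (i - 1)
      have e2 := vA_nonneg n b (i + 1)
      rcases Nat.lt_or_ge 1 i with h | h
      · have := ihb (i - 1) (by omega) (by omega)
        linarith
      · have := ihb (i + 1) (by omega) (by omega)
        linarith
    have := iha i h1 h2
    nlinarith

theorem vA_le (n : ℕ) (t : BT) : ∀ i, vA n t i ≤ nn t := by
  induction t with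
  | pt => intro i; show (if _ then (1 : ℝ) else 0) ≤ _; rw [nn_pt]; split_ifs <;> norm_num
  | att a b iha ihb =>
    intro i
    rw [vA_att, nn_att]
    have h1 : plA n (vA n b) i ≤ 2 * nn b := by
      have := nn_pos b
      unfold plA
      split_ifs
      · have e1 := ihb (i - 1)
        have e2 := ihb (i + 1)
        linarith
      · linarith
    have h0 : 0 ≤ plA n (vA n b) i := by
      unfold plA
      split_ifs
      · exact add_nonneg (vA_nonneg _ _ _) (vA_nonneg _ _ _)
      · exact le_refl _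
    calc vA n a i * plA n (vA n b) i ≤ nn a * (2 * nn b) :=
          mul_le_mul (iha i) h1 h0 (nn_pos a).le
      _ = 2 * nn a * nn b := by ring

theorem vA_sym (n : ℕ) (t : BT) : ∀ i, i ≤ n + 1 → vA n t (n + 1 - i) = vA n t i := by
  induction t with
  | pt =>
    intro i hi
    show (if _ then (1 : ℝ) else 0) = if _ then (1 : ℝ) else 0
    by_cases h : 1 ≤ i ∧ i ≤ n
    · rw [if_pos h, if_pos (by omega)]
    · rw [if_neg h, if_neg (by omega)]
  | att a b iha ihb =>
    intro i hi
    rw [vA_att, vA_att, iha i hi]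
    congr 1
    by_cases h : 1 ≤ i ∧ i ≤ n
    · rw [plA_in _ h.1 h.2, plA_in _ (by omega) (by omega)]
      have e1 : n + 1 - i - 1 = n + 1 - (i + 1) := by omega
      have e2 : n + 1 - i + 1 = n + 1 - (i - 1) := by omega
      rw [e1, e2, ihb (i + 1) (by omega), ihb (i - 1) (by omega), add_comm]
    · unfold plA
      rw [if_neg h, if_neg (by omega)]

theorem vA_end (n : ℕ) (hn : 2 ≤ n) (t : BT) (ht : t ≠ .pt) : 2 * vA n t 1 ≤ nn t := by
  cases t with
  | pt => exact absurd rfl ht
  | att a b =>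
    rw [vA_att, nn_att, plA_in _ (le_refl 1) (by omega), vA_zero n b _ (Or.inl rfl), zero_add]
    have h1 := vA_le n a 1
    have h2 := vA_le n b (1 + 1)
    have h3 := vA_nonneg n b (1 + 1)
    have := mul_le_mul h1 h2 h3 (nn_pos a).le
    nlinarith

theorem bil (M N x1 y1 x2 y2 : ℝ) (hM : 2 ≤ M) (hN : 2 ≤ N) (h1 : 1 ≤ x1) (h2 : 2 * x1 ≤ M)
    (h3 : 0 ≤ y1) (h4 : x1 + y1 ≤ M + 1) (h5 : 1 ≤ x2) (h6 : 2 * x2 ≤ N) (h7 : 0 ≤ y2)
    (h8 : x2 + y2 ≤ N + 1) : x1 * x2 + y1 * y2 ≤ M * N + 1 := by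
  have e1 : y1 * y2 ≤ (M + 1 - x1) * (N + 1 - x2) :=
    mul_le_mul (by linarith) (by linarith) h7 (by linarith)
  nlinarith [mul_nonneg (sub_nonneg.mpr h1) (sub_nonneg.mpr h5),
    mul_nonneg (sub_nonneg.mpr h2) (sub_nonneg.mpr h5), mul_nonneg (sub_nonneg.mpr h1) (sub_nonneg.mpr hN),
    mul_nonneg (sub_nonneg.mpr h6) (sub_nonneg.mpr h1)]

theorem vA_two (n : ℕ) (hn : 3 ≤ n) (t : BT) (ht : t ≠ .pt) : vA n t 1 + vA n t 2 ≤ nn t + 1 := by
  induction t with
  | pt => exact absurd rfl ht
  | att a b iha ihb =>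
    -- the planted part
    have hu : plA n (vA n b) 1 = vA n b 2 := by
      rw [plA_in _ (le_refl 1) (by omega), vA_zero n b _ (Or.inl rfl), zero_add]
    have hv : plA n (vA n b) 2 = vA n b 1 + vA n b 3 := plA_in _ (by omega) (by omega)
    have hu1 : 1 ≤ plA n (vA n b) 1 := by rw [hu]; exact vA_ge_one n (by omega) b 2 (by omega) (by omega)
    have hu2 : 2 * plA n (vA n b) 1 ≤ 2 * nn b := by
      rw [hu]; have := vA_le n b 2; linarith
    have hv0 : 0 ≤ plA n (vA n b) 2 := by
      rw [hv]; exact add_nonneg (vA_nonneg _ _ _) (vA_nonneg _ _ _)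
    have huv : plA n (vA n b) 1 + plA n (vA n b) 2 ≤ 2 * nn b + 1 := by
      rw [hu, hv]
      cases b with
      | pt =>
        have e1 : vA n .pt 1 = 1 := if_pos (by omega)
        have e2 : vA n .pt 2 = 1 := if_pos (by omega)
        have e3 : vA n .pt 3 = 1 := if_pos (by omega)
        rw [e1, e2, e3, nn_pt]; norm_num
      | att c d =>
        have h1 := ihb (by simp)
        have h2 := vA_le n (.att c d) 3
        linarith
    rw [vA_att, vA_att, nn_att]
    cases a with
    | pt =>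
      have e1 : vA n .pt 1 = 1 := if_pos (by omega)
      have e2 : vA n .pt 2 = 1 := if_pos (by omega)
      rw [e1, e2, nn_pt]
      linarith
    | att c d =>
      have hne : BT.att c d ≠ .pt := by simp
      have h1 := iha hne
      have h2 := vA_end n (by omega) (.att c d) hne
      have h3 := vA_ge_one n (by omega) (.att c d) 1 (le_refl 1) (by omega)
      have h4 := nn_ge_two _ hne
      have h5 := nn_ge_one b
      have := bil (nn (.att c d)) (2 * nn b) _ _ _ _ h4 (by linarith) h3 h2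
        (vA_nonneg n (.att c d) 2) h1 hu1 hu2 hv0 huv
      linarith

/-- the contribution of the edge `i, i + 1` -/
noncomputable def EG (n : ℕ) (a b : BT) (i : ℕ) : ℝ :=
  vA n a i * vA n b (i + 1) + vA n a (i + 1) * vA n b i

theorem sum_edges (n : ℕ) (hn : 1 ≤ n) (a b : BT) :
    sumA n (vA n (.att a b)) = ∑ i ∈ Icc 1 (n - 1), EG n a b i := by
  have h1 : sumA n (vA n (.att a b)) = ∑ i ∈ range n, vA n a (i + 1) * vA n b i +
      ∑ i ∈ range n, vA n a (i + 1) * vA n b (i + 2) := by
    unfold sumA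
    rw [← shift, ← Finset.sum_add_distrib]
    refine Finset.sum_congr rfl fun i hi => ?_
    rw [Finset.mem_range] at hi
    rw [vA_att, plA_in _ (by omega) (by omega)]
    have e1 : i + 1 - 1 = i := by omega
    rw [e1]
    ring
  obtain ⟨m, rfl⟩ : ∃ m, n = m + 1 := ⟨n - 1, by omega⟩
  rw [h1, Finset.sum_range_succ', Finset.sum_range_succ, vA_zero (m + 1) b 0 (Or.inl rfl),
    vA_zero (m + 1) b (m + 2) (Or.inr (by omega)), mul_zero, mul_zero, add_zero, add_zero,
    Nat.add_sub_cancel, ← shift (EG (m + 1) a b) m, ← Finset.sum_add_distrib]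
  refine Finset.sum_congr rfl fun i _ => ?_
  unfold EG
  ring

theorem EG_le (n : ℕ) (a b : BT) (i : ℕ) : EG n a b i ≤ nn (.att a b) := by
  unfold EG
  rw [nn_att]
  have h1 := mul_le_mul (vA_le n a i) (vA_le n b (i + 1)) (vA_nonneg n b (i + 1)) (nn_pos a).le
  have h2 := mul_le_mul (vA_le n a (i + 1)) (vA_le n b i) (vA_nonneg n b i) (nn_pos a).le
  linarith

theorem pathUB : S_pathUB := by
  intro n hn t ht
  cases t with
  | pt => exact absurd rfl ht
  | att a b =>
    have h : (tot (SimpleGraph.pathGraph n) (.att a b) : ℝ) ≤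
        (((n - 1) * 2 ^ ((BT.att a b).size - 1) : ℕ) : ℝ) := by
      rw [totA, sum_edges n (by omega)]
      refine (Finset.sum_le_sum fun i _ => EG_le n a b i).trans ?_
      rw [Finset.sum_const, nsmul_eq_mul, Nat.card_Icc]
      push_cast
      exact le_refl _
    exact_mod_cast h

theorem EG_one (n : ℕ) (hn : 3 ≤ n) (a b : BT) (hs : 3 ≤ (BT.att a b).size) :
    2 * EG n a b 1 ≤ nn (.att a b) + 2 := by
  unfold EG
  rw [nn_att]
  have p1 : vA n .pt 1 = 1 := if_pos (by omega)
  have p2 : vA n .pt 2 = 1 := if_pos (by omega)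
  show 2 * (vA n a 1 * vA n b 2 + vA n a 2 * vA n b 1) ≤ _
  by_cases ha : a = .pt
  · subst ha
    have hb : b ≠ .pt := by rintro rfl; simp [BT.size] at hs
    rw [p1, p2, nn_pt]
    have := vA_two n hn b hb
    linarith
  by_cases hb : b = .pt
  · subst hb
    rw [p1, p2, nn_pt]
    have := vA_two n hn a ha
    linarith
  have h1 := vA_end n (by omega) a ha
  have h2 := vA_end n (by omega) b hb
  have h3 := vA_le n a 2
  have h4 := vA_le n b 2
  have e1 := mul_le_mul h1 h4 (vA_nonneg n b 2) (nn_pos a).le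
  have e2 := mul_le_mul h3 h2 (mul_nonneg two_pos.le (vA_nonneg n b 1)) (nn_pos a).le
  linarith

theorem EG_last (n : ℕ) (hn : 3 ≤ n) (a b : BT) : EG n a b (n - 1) = EG n a b 1 := by
  unfold EG
  have h1 : ∀ t, vA n t (n - 1) = vA n t 2 := fun t => by
    rw [← vA_sym n t 2 (by omega)]; congr 1
  have h2 : ∀ t, vA n t (n - 1 + 1) = vA n t 1 := fun t => by
    rw [← vA_sym n t 1 (by omega)]; congr 1; omega
  rw [h1, h1, h2, h2]
  ring

theorem pathUB2 : S_pathUB2 := by
  intro n hn t ht
  cases t with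
  | pt => simp [BT.size] at ht
  | att a b =>
    have h : (tot (SimpleGraph.pathGraph n) (.att a b) : ℝ) ≤
        (((n - 2) * 2 ^ ((BT.att a b).size - 1) + 2 : ℕ) : ℝ) := by
      rw [totA, sum_edges n (by omega)]
      obtain ⟨m, rfl⟩ : ∃ m, n = m + 4 := ⟨n - 4, by omega⟩
      have e0 : m + 4 - 1 = m + 1 + 2 := by omega
      rw [e0, ← shift, Finset.sum_range_succ, Finset.sum_range_succ']
      have h1 := EG_one (m + 4) (by omega) a b ht
      have h2 := EG_last (m + 4) (by omega) a b
      rw [e0] at h2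
      have h3 : ∑ k ∈ range (m + 1), EG (m + 4) a b (k + 1 + 1) ≤ (m + 1 : ℕ) * nn (.att a b) := by
        refine (Finset.sum_le_sum fun i _ => EG_le (m + 4) a b _).trans ?_
        rw [Finset.sum_const, nsmul_eq_mul, Finset.card_range]
      have e1 : EG (m + 4) a b (m + 1 + 1 + 1) = EG (m + 4) a b 1 := h2
      have e2 : EG (m + 4) a b (0 + 1) = EG (m + 4) a b 1 := rfl
      rw [e1, e2]
      have e3 : m + 4 - 2 = m + 2 := by omega
      rw [e3]
      push_cast
      have e4 : (2 : ℝ) ^ ((BT.att a b).size - 1) = nn (.att a b) := rfl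
      rw [e4]
      push_cast at h3
      linarith
    exact_mod_cast h

end Pool.Agent.W272.HTPUB
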