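import Pool.Agent.W106.HT.Stm
import Pool.Agent.W272.HTPUB

/-! HT-DT: the double fork dominates the path. -/

set_option autoImplicit false

namespace Pool.Agent.W272.HTDT

open Pool.Agent.W106.HT Finset Pool.Agent.W272.HTLINK Pool.Agent.W272.HTPUB

/-! ### Neighbour sums in the graph of a term -/

open Classical in
/-- neighbour sum -/
noncomputable def NS {W : Type} [Fintype W] (G : SimpleGraph W) (f : W → ℝ) (x : W) : ℝ :=
  ∑ y, if G.Adj x y then f y else 0

theorem NS_inl (a b : BT) (f : (BT.att a b).V → ℝ) (x : a.V) :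
    NS (BT.att a b).graph f (Sum.inl x) =
      NS a.graph (fun y => f (Sum.inl y)) x + (if x = a.root then f (Sum.inr b.root) else 0) := by
  classical
  unfold NS
  refine (Fintype.sum_sum_type (α₁ := a.V) (α₂ := b.V) _).trans ?_
  congr 1
  by_cases hx : x = a.root
  · rw [if_pos hx, Finset.sum_eq_single b.root]
    · exact if_pos ⟨hx, rfl⟩
    · intro y _ hy
      exact if_neg fun h => hy h.2
    · intro h; exact absurd (mem_univ _) h
  · rw [if_neg hx]
    exact Finset.sum_eq_zero fun y _ => if_neg fun h => hx h.1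

theorem NS_inr (a b : BT) (f : (BT.att a b).V → ℝ) (x : b.V) :
    NS (BT.att a b).graph f (Sum.inr x) =
      NS b.graph (fun y => f (Sum.inr y)) x + (if x = b.root then f (Sum.inl a.root) else 0) := by
  classical
  unfold NS
  refine (Fintype.sum_sum_type (α₁ := a.V) (α₂ := b.V) _).trans ?_
  rw [add_comm]
  congr 1
  by_cases hx : x = b.root
  · rw [if_pos hx, Finset.sum_eq_single a.root]
    · exact if_pos ⟨hx, rfl⟩
    · intro y _ hy
      exact if_neg fun h => hy h.2
    · intro h; exact absurd (mem_univ _) h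
  · rw [if_neg hx]
    exact Finset.sum_eq_zero fun y _ => if_neg fun h => hx h.1

/-- weights on a rooted tree -/
def PS (τ : BT) (r d s q : ℝ) : Prop := ∃ ψ : τ.V → ℝ, (∀ x, ψ x = 1 ∨ ψ x = 2) ∧ ψ τ.root = r ∧
  NS τ.graph ψ τ.root = 2 * ψ τ.root - d ∧ (∀ x, x ≠ τ.root → NS τ.graph ψ x = 2 * ψ x) ∧
  ∑ x, ψ x ^ 2 = s ∧
  ∑ x, ψ x ^ 2 * Real.log (ψ x) = q

theorem PS_pt (c : ℝ) (hc : c = 1 ∨ c = 2) :
    PS .pt c (2 * c) (c ^ 2) (c ^ 2 * Real.log c) := by
  refine ⟨fun _ => c, fun _ => hc, rfl, ?_, fun x hx => absurd rfl hx, ?_, ?_⟩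
  · have h : NS BT.pt.graph (fun _ => c) BT.pt.root = 0 := by
      unfold NS
      exact Finset.sum_eq_zero fun y _ => if_neg fun h => h
    rw [h]
    ring
  · exact Fintype.sum_unique (fun _ : Unit => c ^ 2)
  · exact Fintype.sum_unique (fun _ : Unit => c ^ 2 * Real.log c)

theorem PS_att {a b : BT} {ra da sa qa rb sb qb : ℝ} (ha : PS a ra da sa qa)
    (hb : PS b rb ra sb qb) : PS (.att a b) ra (da - rb) (sa + sb) (qa + qb) := by
  obtain ⟨ψ, h1, h2, h3, h3', h4, h5⟩ := ha
  obtain ⟨φ, g1, g2, g3, g3', g4, g5⟩ := hb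
  refine ⟨Sum.elim ψ φ, ?_, h2, ?_, ?_, ?_, ?_⟩
  · rintro (x | x)
    · exact h1 x
    · exact g1 x
  · refine (NS_inl a b (Sum.elim ψ φ) a.root).trans ?_
    show NS a.graph ψ a.root + (if a.root = a.root then φ b.root else 0) =
      2 * ψ a.root - (da - rb)
    rw [h3, if_pos rfl, g2]; ring
  · rintro (x | x) hx
    · have hx' : x ≠ a.root := fun h => hx (congrArg Sum.inl h)
      refine (NS_inl a b (Sum.elim ψ φ) x).trans ?_
      show NS a.graph ψ x + (if x = a.root then φ b.root else 0) = 2 * ψ x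
      rw [h3' x hx', if_neg hx']; ring
    · refine (NS_inr a b (Sum.elim ψ φ) x).trans ?_
      show NS b.graph φ x + (if x = b.root then ψ a.root else 0) = 2 * φ x
      by_cases hx : x = b.root
      · rw [if_pos hx, hx, g3, h2]; ring
      · rw [if_neg hx, g3' x hx]; ring
  · rw [← h4, ← g4]
    exact Fintype.sum_sum_type (α₁ := a.V) (α₂ := b.V) _
  · rw [← h5, ← g5]
    exact Fintype.sum_sum_type (α₁ := a.V) (α₂ := b.V) _

theorem PS_one : PS .pt 1 2 1 0 := by
  have := PS_pt 1 (Or.inl rfl)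
  norm_num at this
  exact this

theorem PS_two : PS .pt 2 4 4 (4 * Real.log 2) := by
  have := PS_pt 2 (Or.inr rfl)
  norm_num at this
  exact this

theorem PS_node : PS (node2 .pt .pt) 2 2 6 (4 * Real.log 2) := by
  have := PS_att (PS_att PS_two PS_one) PS_one
  norm_num at this
  exact this

theorem PS_ch (L : ℕ) : PS (ch L (node2 .pt .pt)) 2 2 (6 + 4 * L) (4 * Real.log 2 * (L + 1)) := by
  induction L with
  | zero =>
    have := PS_node
    simpa [ch] using this
  | succ L ih =>
    have := PS_att PS_two ih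
    have e1 : (4 : ℝ) - 2 = 2 := by norm_num
    have e2 : (4 : ℝ) + (6 + 4 * L) = 6 + 4 * ((L + 1 : ℕ) : ℝ) := by push_cast; ring
    have e3 : 4 * Real.log 2 + 4 * Real.log 2 * ((L : ℝ) + 1) =
        4 * Real.log 2 * (((L + 1 : ℕ) : ℝ) + 1) := by push_cast; ring
    rw [e1, e2, e3] at this
    exact this

theorem PS_G (L : ℕ) : PS (N3 (ch L (node2 .pt .pt)) .pt .pt) 2 0 (4 * (L + 3))
    (4 * Real.log 2 * (L + 2)) := by
  have := PS_att (PS_att (PS_att PS_two (PS_ch L)) PS_one) PS_one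
  have e1 : (4 : ℝ) - 2 - 1 - 1 = 0 := by norm_num
  have e2 : (4 : ℝ) + (6 + 4 * L) + 1 + 1 = 4 * (L + 3) := by ring
  have e3 : 4 * Real.log 2 + 4 * Real.log 2 * ((L : ℝ) + 1) + 0 + 0 =
      4 * Real.log 2 * ((L : ℝ) + 2) := by ring
  rw [e1, e2, e3] at this
  exact this

/-! ### The general bound -/

theorem jensW {ι : Type} (s : Finset ι) (f w : ι → ℝ) (hf : ∀ i ∈ s, 0 < f i)
    (hw : ∀ i ∈ s, 0 < w i) (h1 : ∑ i ∈ s, w i = 1) :
    ∑ i ∈ s, w i * (Real.log (f i) - Real.log (w i)) ≤ Real.log (∑ i ∈ s, f i) := by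
  have hs : s.Nonempty := by
    rw [Finset.nonempty_iff_ne_empty]
    rintro rfl
    simp at h1
  have hS : 0 < ∑ i ∈ s, f i := Finset.sum_pos hf hs
  set S := ∑ i ∈ s, f i with hSdef
  have h2 : ∀ i ∈ s, w i * (Real.log (f i) - Real.log (w i)) - w i * Real.log S ≤ f i / S - w i := by
    intro i hi
    have p1 := hf i hi
    have p2 := hw i hi
    have h3 : Real.log (f i / w i / S) ≤ f i / w i / S - 1 :=
      Real.log_le_sub_one_of_pos (by positivity)
    rw [Real.log_div (by positivity) hS.ne', Real.log_div p1.ne' p2.ne'] at h3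
    have h4 := mul_le_mul_of_nonneg_left h3 p2.le
    have h5 : w i * (f i / w i / S - 1) = f i / S - w i := by field_simp
    rw [h5] at h4
    linarith
  have h3 := Finset.sum_le_sum h2
  rw [Finset.sum_sub_distrib, Finset.sum_sub_distrib, ← Finset.sum_mul, ← Finset.sum_div, h1,
    ← hSdef, div_self hS.ne'] at h3
  linarith

section Gen

variable {W : Type} [Fintype W] (G : SimpleGraph W)

theorem hv_NS (a b : BT) (x : W) :
    (hv G (.att a b) x : ℝ) = hv G a x * NS G (fun y => (hv G b y : ℝ)) x := by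
  classical
  exact hv_att_real G a b x (fun y => if G.Adj x y then (hv G b y : ℝ) else 0)
    (fun y hy => (if_pos hy).symm) (fun y hy => if_neg hy) |>.trans (by
      unfold NS
      rfl)

open Classical in
theorem NS_eq (f : W → ℝ) (x : W) : NS G f x = ∑ y ∈ univ.filter (fun y => G.Adj x y), f y := by
  unfold NS
  rw [Finset.sum_filter]

theorem NS_exch (f g : W → ℝ) : ∑ x, f x * NS G g x = ∑ x, g x * NS G f x := by
  classical
  unfold NS
  simp only [Finset.mul_sum]
  rw [Finset.sum_comm]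
  refine Finset.sum_congr rfl fun x _ => Finset.sum_congr rfl fun y _ => ?_
  by_cases h : G.Adj x y
  · rw [if_pos h, if_pos h.symm]; ring
  · rw [if_neg h, if_neg (fun h' => h h'.symm)]; ring

variable (ψ : W → ℝ) (hψ : ∀ x, ψ x = 1 ∨ ψ x = 2) (hN : ∀ x, NS G ψ x = 2 * ψ x)

include hψ in
theorem ψ_pos (x : W) : 0 < ψ x := by rcases hψ x with h | h <;> rw [h] <;> norm_num

include hψ hN in
theorem NS_pos (f : W → ℝ) (hf : ∀ x, 0 < f x) (x : W) : 0 < NS G f x := by
  classical
  have h1 : 0 < NS G ψ x := by rw [hN]; have := ψ_pos ψ hψ x; linarith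
  rw [NS_eq] at h1 ⊢
  refine Finset.sum_pos (fun y _ => hf y) ?_
  by_contra h
  rw [Finset.not_nonempty_iff_eq_empty] at h
  rw [h] at h1
  simp at h1

include hψ hN in
theorem hv_posR (t : BT) : ∀ x, 0 < (hv G t x : ℝ) := by
  induction t with
  | pt => intro x; show (0 : ℝ) < ((1 : ℕ) : ℝ); norm_num
  | att a b iha ihb =>
    intro x
    rw [hv_NS]
    exact mul_pos (iha x) (NS_pos G ψ hψ hN _ ihb x)

include hψ hN in
theorem step (f : W → ℝ) (hf : ∀ x, 0 < f x) :
    ∑ x, ψ x ^ 2 * Real.log (f x) + Real.log 2 * ∑ x, ψ x ^ 2 ≤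
      ∑ x, ψ x ^ 2 * Real.log (NS G f x) := by
  classical
  have h1 : ∀ x, NS G (fun y => ψ x * ψ y / 2 * (Real.log (f y) - Real.log (ψ y) + Real.log 2 +
      Real.log (ψ x))) x ≤ ψ x ^ 2 * Real.log (NS G f x) := by
    intro x
    have px := ψ_pos ψ hψ x
    rw [NS_eq, NS_eq]
    have hw : ∑ y ∈ univ.filter (fun y => G.Adj x y), ψ y / (2 * ψ x) = 1 := by
      rw [← Finset.sum_div, ← NS_eq, hN, div_self (by positivity)]
    have h2 := jensW (univ.filter (fun y => G.Adj x y)) f (fun y => ψ y / (2 * ψ x))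
      (fun y _ => hf y) (fun y _ => by have := ψ_pos ψ hψ y; positivity) hw
    have h3 := mul_le_mul_of_nonneg_left h2 (sq_nonneg (ψ x))
    rw [Finset.mul_sum] at h3
    refine (le_of_eq ?_).trans h3
    refine Finset.sum_congr rfl fun y _ => ?_
    have py := ψ_pos ψ hψ y
    rw [Real.log_div py.ne' (by positivity), Real.log_mul two_ne_zero px.ne']
    field_simp
    ring
  refine le_trans (le_of_eq ?_) (Finset.sum_le_sum fun x _ => h1 x)
  have h4 : ∀ x, NS G (fun y => ψ x * ψ y / 2 * (Real.log (f y) - Real.log (ψ y) + Real.log 2 +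
      Real.log (ψ x))) x = ψ x / 2 * NS G (fun y => ψ y * (Real.log (f y) - Real.log (ψ y))) x +
      ψ x ^ 2 * (Real.log 2 + Real.log (ψ x)) := by
    intro x
    have e : ψ x ^ 2 * (Real.log 2 + Real.log (ψ x)) =
        ψ x / 2 * (Real.log 2 + Real.log (ψ x)) * NS G ψ x := by rw [hN]; ring
    rw [e]
    unfold NS
    rw [Finset.mul_sum, Finset.mul_sum, ← Finset.sum_add_distrib]
    refine Finset.sum_congr rfl fun y _ => ?_
    by_cases h : G.Adj x y
    · rw [if_pos h, if_pos h, if_pos h]; ring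
    · rw [if_neg h, if_neg h, if_neg h]; ring
  rw [Finset.sum_congr rfl fun x _ => h4 x, Finset.sum_add_distrib]
  have h5 : ∑ x, ψ x / 2 * NS G (fun y => ψ y * (Real.log (f y) - Real.log (ψ y))) x =
      ∑ x, ψ x ^ 2 * (Real.log (f x) - Real.log (ψ x)) := by
    have e1 : ∀ x, ψ x / 2 * NS G (fun y => ψ y * (Real.log (f y) - Real.log (ψ y))) x =
        (1 / 2) * (ψ x * NS G (fun y => ψ y * (Real.log (f y) - Real.log (ψ y))) x) := by
      intro x; ring
    rw [Finset.sum_congr rfl fun x _ => e1 x, ← Finset.mul_sum, NS_exch, Finset.mul_sum]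
    refine Finset.sum_congr rfl fun x _ => ?_
    rw [hN]; ring
  rw [h5, ← Finset.sum_add_distrib, Finset.mul_sum, ← Finset.sum_add_distrib]
  refine Finset.sum_congr rfl fun x _ => ?_
  ring

include hψ hN in
theorem LLge (t : BT) : ((t.size : ℝ) - 1) * Real.log 2 * ∑ x, ψ x ^ 2 ≤
    ∑ x, ψ x ^ 2 * Real.log (hv G t x : ℝ) := by
  induction t with
  | pt => simp [BT.size, hv]
  | att a b iha ihb =>
    have h1 := step G ψ hψ hN (fun y => (hv G b y : ℝ)) (hv_posR G ψ hψ hN b)
    have h2 : ∑ x, ψ x ^ 2 * Real.log (hv G (.att a b) x : ℝ) =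
        ∑ x, ψ x ^ 2 * Real.log (hv G a x : ℝ) +
        ∑ x, ψ x ^ 2 * Real.log (NS G (fun y => (hv G b y : ℝ)) x) := by
      rw [← Finset.sum_add_distrib]
      refine Finset.sum_congr rfl fun x _ => ?_
      rw [hv_NS, Real.log_mul (hv_posR G ψ hψ hN a x).ne'
        (NS_pos G ψ hψ hN _ (hv_posR G ψ hψ hN b) x).ne']
      ring
    have hs : ((BT.att a b).size : ℝ) = a.size + b.size := by
      simp only [BT.size]; push_cast; ring
    rw [h2, hs]
    linarith

include hψ hN in
theorem bound [Nonempty W] (t : BT) : ((t.size : ℝ) - 1) * Real.log 2 + Real.log (∑ x, ψ x ^ 2) -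
    2 * (∑ x, ψ x ^ 2 * Real.log (ψ x)) / ∑ x, ψ x ^ 2 ≤ Real.log (tot G t : ℝ) := by
  have hS : 0 < ∑ x, ψ x ^ 2 :=
    Finset.sum_pos (fun x _ => by have := ψ_pos ψ hψ x; positivity) univ_nonempty
  have h0 := LLge G ψ hψ hN t
  set S := ∑ x, ψ x ^ 2 with hSdef
  have h1 := jensW (univ : Finset W) (fun x => (hv G t x : ℝ)) (fun x => ψ x ^ 2 / S)
    (fun x _ => hv_posR G ψ hψ hN t x) (fun x _ => by have := ψ_pos ψ hψ x; positivity)
    (by rw [← Finset.sum_div, ← hSdef, div_self hS.ne'])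
  have h2 : ∑ x, ψ x ^ 2 / S * (Real.log (hv G t x : ℝ) - Real.log (ψ x ^ 2 / S)) =
      (∑ x, ψ x ^ 2 * Real.log (hv G t x : ℝ)) / S -
        2 * (∑ x, ψ x ^ 2 * Real.log (ψ x)) / S + Real.log S := by
    have e1 : ∀ x, ψ x ^ 2 / S * (Real.log (hv G t x : ℝ) - Real.log (ψ x ^ 2 / S)) =
        ψ x ^ 2 * Real.log (hv G t x : ℝ) / S - 2 * (ψ x ^ 2 * Real.log (ψ x)) / S +
          ψ x ^ 2 / S * Real.log S := by
      intro x
      have := ψ_pos ψ hψ x
      rw [Real.log_div (by positivity) hS.ne', Real.log_pow]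
      push_cast
      ring
    rw [Finset.sum_congr rfl fun x _ => e1 x, Finset.sum_add_distrib, Finset.sum_sub_distrib,
      ← Finset.sum_div, ← Finset.sum_div, ← Finset.sum_mul, ← Finset.sum_div, ← Finset.mul_sum,
      ← hSdef, div_self hS.ne', one_mul]
  rw [h2] at h1
  have h3 : Real.log (∑ x, (hv G t x : ℝ)) = Real.log (tot G t : ℝ) := by
    unfold tot; push_cast; rfl
  rw [h3] at h1
  have h4 : ((t.size : ℝ) - 1) * Real.log 2 ≤ (∑ x, ψ x ^ 2 * Real.log (hv G t x : ℝ)) / S := by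
    rw [le_div_iff₀ hS]; exact h0
  linarith

end Gen

/-! ### Small source trees -/

theorem sum_one (τ : BT) : (∑ _x : τ.V, (1 : ℝ)) = τ.size := by
  induction τ with
  | pt => simp [BT.size]; exact Fintype.card_unique (α := Unit)
  | att a b iha ihb =>
    have h := Fintype.sum_sum_type (α₁ := a.V) (α₂ := b.V) (fun _ => (1 : ℝ))
    have hs : ((BT.att a b).size : ℝ) = a.size + b.size := by
      simp only [BT.size]; push_cast; ring
    rw [hs, ← iha, ← ihb]
    exact h

theorem sum_NS (τ : BT) : ∑ x : τ.V, NS τ.graph (fun _ => (1 : ℝ)) x = 2 * ((τ.size : ℝ) - 1) := by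
  induction τ with
  | pt =>
    have h : ∀ x, NS BT.pt.graph (fun _ => (1 : ℝ)) x = 0 := by
      intro x
      unfold NS
      exact Finset.sum_eq_zero fun y _ => if_neg fun h => h
    rw [Finset.sum_eq_zero (fun x _ => h x)]
    simp [BT.size]
  | att a b iha ihb =>
    have hs : ((BT.att a b).size : ℝ) = a.size + b.size := by
      simp only [BT.size]; push_cast; ring
    have h := Fintype.sum_sum_type (α₁ := a.V) (α₂ := b.V)
      (fun x => NS (BT.att a b).graph (fun _ => (1 : ℝ)) x)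
    refine h.trans ?_
    rw [Finset.sum_congr rfl fun x _ => NS_inl a b (fun _ => (1 : ℝ)) x,
      Finset.sum_congr rfl fun x _ => NS_inr a b (fun _ => (1 : ℝ)) x,
      Finset.sum_add_distrib, Finset.sum_add_distrib, iha, ihb, hs,
      Finset.sum_ite_eq', Finset.sum_ite_eq', if_pos (mem_univ _), if_pos (mem_univ _)]
    ring

theorem size_ch (L : ℕ) : (ch L (node2 .pt .pt)).size = L + 3 := by
  induction L with
  | zero => rfl
  | succ L ih =>
    show 1 + (ch L (node2 .pt .pt)).size = _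
    rw [ih]; omega

theorem size_G (L : ℕ) : (N3 (ch L (node2 .pt .pt)) .pt .pt).size = L + 6 := by
  show 1 + (ch L (node2 .pt .pt)).size + 1 + 1 = _
  rw [size_ch]; omega

theorem lower (τ : BT) (L : ℕ) (hPS : PS τ 2 0 (4 * (L + 3)) (4 * Real.log 2 * (L + 2)))
    (t : BT) : (2 : ℝ) ^ (t.size - 1) * ((L : ℝ) + 3 + 138 / 100) ≤ tot τ.graph t := by
  obtain ⟨ψ, h1, h2, h3, h3', h4, h5⟩ := hPS
  have : Nonempty τ.V := ⟨τ.root⟩
  have hN : ∀ x, NS τ.graph ψ x = 2 * ψ x := by
    intro x
    by_cases hx : x = τ.root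
    · rw [hx, h3, sub_zero]
    · exact h3' x hx
  have hb := bound τ.graph ψ h1 hN t
  rw [h4, h5] at hb
  have htp : (0 : ℝ) < tot τ.graph t := by
    unfold tot
    push_cast
    exact Finset.sum_pos (fun x _ => hv_posR τ.graph ψ h1 hN t x) univ_nonempty
  have hm : (0 : ℝ) < (L : ℝ) + 3 := by positivity
  have hl2 : (0.6931471803 : ℝ) < Real.log 2 := Real.log_two_gt_d9
  have e1 : Real.log (4 * ((L : ℝ) + 3)) = 2 * Real.log 2 + Real.log ((L : ℝ) + 3) := by
    rw [Real.log_mul (by norm_num) hm.ne']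
    have : Real.log 4 = 2 * Real.log 2 := by
      rw [show (4 : ℝ) = 2 ^ 2 by norm_num, Real.log_pow]; push_cast; ring
    rw [this]
  have e2 : 2 * (4 * Real.log 2 * ((L : ℝ) + 2)) / (4 * ((L : ℝ) + 3)) =
      2 * Real.log 2 - 2 * Real.log 2 / ((L : ℝ) + 3) := by
    field_simp
    ring
  rw [e1, e2] at hb
  have hsz : ((t.size : ℝ) - 1) = ((t.size - 1 : ℕ) : ℝ) := by
    rw [Nat.cast_sub (size_pos t)]; simp
  have h6 : Real.log ((2 : ℝ) ^ (t.size - 1) * (((L : ℝ) + 3) * Real.exp (2 * Real.log 2 / ((L : ℝ) + 3)))) ≤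
      Real.log (tot τ.graph t : ℝ) := by
    rw [Real.log_mul (by positivity) (by positivity), Real.log_mul hm.ne' (Real.exp_pos _).ne',
      Real.log_exp, Real.log_pow, ← hsz]
    linarith
  have h7 := (Real.log_le_log_iff (by positivity) htp).mp h6
  refine le_trans ?_ h7
  refine mul_le_mul_of_nonneg_left ?_ (by positivity)
  have h8 : 2 * Real.log 2 / ((L : ℝ) + 3) + 1 ≤ Real.exp (2 * Real.log 2 / ((L : ℝ) + 3)) :=
    Real.add_one_le_exp _
  have h9 := mul_le_mul_of_nonneg_left h8 hm.le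
  have h10 : ((L : ℝ) + 3) * (2 * Real.log 2 / ((L : ℝ) + 3) + 1) = 2 * Real.log 2 + (L + 3) := by
    field_simp
  rw [h10] at h9
  linarith

theorem dt (h : S_pathUB2) : S_dt := by
  intro L t
  have hlow := lower _ L (PS_G L) t
  have hG := size_G L
  set τ := N3 (ch L (node2 .pt .pt)) .pt .pt with hτ
  rcases Nat.lt_or_ge t.size 3 with hs | hs
  · -- small trees
    match t, hs with
    | .pt, _ =>
      have h1 : (tot τ.graph .pt : ℝ) = L + 6 := by
        have := sum_one τ
        rw [hG] at this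
        push_cast at this
        rw [← this]
        unfold tot
        push_cast
        refine Finset.sum_congr rfl fun x _ => ?_
        show ((1 : ℕ) : ℝ) = 1
        norm_num
      have h2 : tot (SimpleGraph.pathGraph (L + 6)) .pt = L + 6 := by
        show ∑ _x : Fin (L + 6), 1 = L + 6
        simp
      rw [h2]
      have : ((L + 6 : ℕ) : ℝ) ≤ tot τ.graph .pt := by rw [h1]; push_cast; exact le_refl _
      exact_mod_cast this
    | .att .pt .pt, _ =>
      have h1 : (tot τ.graph (.att .pt .pt) : ℝ) = 2 * (L + 5) := by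
        have := sum_NS τ
        rw [hG] at this
        push_cast at this
        have e : (2 : ℝ) * (L + 5) = 2 * (L + 6 - 1) := by ring
        rw [e, ← this]
        unfold tot
        push_cast
        refine Finset.sum_congr rfl fun x _ => ?_
        rw [hv_NS]
        have e1 : (hv τ.graph .pt x : ℝ) = 1 := by
          show ((1 : ℕ) : ℝ) = 1
          norm_num
        have e2 : (fun y => (hv τ.graph .pt y : ℝ)) = fun _ => 1 := by
          funext y
          show ((1 : ℕ) : ℝ) = 1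
          norm_num
        rw [e1, e2, one_mul]
      have h2 := pathUB (L + 6) (by omega) (.att .pt .pt) (by simp)
      have h3 : ((BT.att .pt .pt).size - 1) = 1 := rfl
      rw [h3] at h2
      have h4 : (((L + 6 - 1) * 2 ^ 1 : ℕ) : ℝ) ≤ tot τ.graph (.att .pt .pt) := by
        rw [h1, show L + 6 - 1 = L + 5 by omega]; push_cast; linarith
      exact h2.trans (by exact_mod_cast h4)
    | .att (.att x y) b, hs =>
      exfalso
      have := size_pos x
      have := size_pos y
      have := size_pos b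
      simp only [BT.size] at hs
      omega
    | .att .pt (.att x y), hs =>
      exfalso
      have := size_pos x
      have := size_pos y
      simp only [BT.size] at hs
      omega
  · have h1 := h (L + 6) (by omega) t hs
    refine h1.trans ?_
    rw [show L + 6 - 2 = L + 4 by omega]
    rcases Nat.lt_or_ge t.size 4 with hs4 | hs4
    · have e : t.size - 1 = 2 := by omega
      rw [e] at hlow ⊢
      have h2 : ((L + 4) * 2 ^ 2 + 2 : ℕ) < (tot τ.graph t) + 1 := by
        have : (((L + 4) * 2 ^ 2 + 2 : ℕ) : ℝ) < ((tot τ.graph t + 1 : ℕ) : ℝ) := by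
          push_cast
          linarith
        exact_mod_cast this
      omega
    · have h2 : (8 : ℝ) ≤ 2 ^ (t.size - 1) := by
        have : (2 : ℝ) ^ 3 ≤ 2 ^ (t.size - 1) := pow_le_pow_right₀ (by norm_num) (by omega)
        linarith
      have h3 : (((L + 4) * 2 ^ (t.size - 1) + 2 : ℕ) : ℝ) ≤ (tot τ.graph t : ℝ) := by
        push_cast
        nlinarith
      exact_mod_cast h3

end Pool.Agent.W272.HTDT
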