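import Pool.Agent.W106.HT.Stm

/-! HT-ENT: entropy lower bound. -/

set_option autoImplicit false

namespace Pool.Agent.W272.HTENT

open Pool.Agent.W106.HT Finset

theorem jens {ι : Type} (s : Finset ι) (f : ι → ℝ) (hf : ∀ i ∈ s, 0 < f i) (hs : s.Nonempty) :
    ∑ i ∈ s, Real.log (f i) ≤ s.card * (Real.log (∑ i ∈ s, f i) - Real.log s.card) := by
  have hc : (0 : ℝ) < s.card := by exact_mod_cast hs.card_pos
  have hS : 0 < ∑ i ∈ s, f i := Finset.sum_pos hf hs
  set S := ∑ i ∈ s, f i with hSdef
  have hm : 0 < S / s.card := by positivity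
  have h1 : ∀ i ∈ s, Real.log (f i) - Real.log (S / s.card) ≤ f i / (S / s.card) - 1 := by
    intro i hi
    rw [← Real.log_div (hf i hi).ne' hm.ne']
    exact Real.log_le_sub_one_of_pos (div_pos (hf i hi) hm)
  have h2 := Finset.sum_le_sum h1
  rw [Finset.sum_sub_distrib, Finset.sum_sub_distrib, ← Finset.sum_div, ← hSdef] at h2
  simp only [Finset.sum_const, nsmul_eq_mul, mul_one] at h2
  have h3 : S / (S / s.card) = s.card := by field_simp
  rw [h3, Real.log_div hS.ne' hc.ne'] at h2
  linarith

section

variable {W : Type} [Fintype W] (G : SimpleGraph W) [DecidableRel G.Adj]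

theorem hv_att (a b : BT) (x : W) :
    hv G (.att a b) x = hv G a x * ∑ y ∈ G.neighborFinset x, hv G b y := by
  show hv G a x * _ = _
  congr 1
  refine Eq.trans (Finset.sum_subset (Finset.subset_univ (G.neighborFinset x))
    (fun y _ hy => ?_)).symm (Finset.sum_congr rfl (fun y hy => ?_))
  · exact if_neg (by simpa using hy)
  · exact if_pos (by simpa using hy)

theorem hv_pos (hd : ∀ v, 1 ≤ G.degree v) (t : BT) : ∀ x, 1 ≤ hv G t x := by
  induction t with
  | pt => intro x; exact le_refl _
  | att a b iha ihb =>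
    intro x
    rw [hv_att]
    have h1 : 1 ≤ ∑ y ∈ G.neighborFinset x, hv G b y := by
      calc 1 ≤ G.degree x := hd x
        _ = ∑ y ∈ G.neighborFinset x, 1 := by simp
        _ ≤ _ := Finset.sum_le_sum fun y _ => ihb y
    exact Nat.mul_le_mul (iha x) h1

/-- real valued -/
noncomputable def h (t : BT) (x : W) : ℝ := (hv G t x : ℝ)

theorem h_pos (hd : ∀ v, 1 ≤ G.degree v) (t : BT) (x : W) : 0 < h G t x := by
  have := hv_pos G hd t x
  unfold h
  exact_mod_cast this

theorem h_att (a b : BT) (x : W) :
    h G (.att a b) x = h G a x * ∑ y ∈ G.neighborFinset x, h G b y := by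
  unfold h
  rw [hv_att]
  push_cast
  rfl

theorem exch (g : W → ℝ) :
    ∑ x, ∑ y ∈ G.neighborFinset x, g y = ∑ y, (G.degree y : ℝ) * g y := by
  rw [Finset.sum_comm' (t' := univ) (s' := fun y => G.neighborFinset y)]
  · refine Finset.sum_congr rfl fun y _ => ?_
    rw [Finset.sum_const, nsmul_eq_mul]
    rfl
  · intro x y
    simp [G.adj_comm]

/-- `Σ deg log` -/
noncomputable def LL (t : BT) : ℝ := ∑ x, (G.degree x : ℝ) * Real.log (h G t x)

/-- `Σ deg log deg` -/
noncomputable def EE : ℝ := ∑ x, (G.degree x : ℝ) * Real.log (G.degree x)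

theorem nbr_nonempty (hd : ∀ v, 1 ≤ G.degree v) (x : W) : (G.neighborFinset x).Nonempty :=
  Finset.card_pos.mp (hd x)

theorem LL_ge (hd : ∀ v, 1 ≤ G.degree v) (t : BT) : ((t.size : ℝ) - 1) * EE G ≤ LL G t := by
  induction t with
  | pt => simp [BT.size, LL, h, hv]
  | att a b iha ihb =>
    have h1 : LL G a + EE G + LL G b ≤ LL G (.att a b) := by
      unfold LL EE
      rw [← exch G (fun y => Real.log (h G b y)), ← Finset.sum_add_distrib,
        ← Finset.sum_add_distrib]
      refine Finset.sum_le_sum fun x _ => ?_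
      have hS : 0 < ∑ y ∈ G.neighborFinset x, h G b y :=
        Finset.sum_pos (fun y _ => h_pos G hd b y) (nbr_nonempty G hd x)
      have := jens (G.neighborFinset x) (h G b) (fun y _ => h_pos G hd b y) (nbr_nonempty G hd x)
      rw [h_att, Real.log_mul (h_pos G hd a x).ne' hS.ne']
      have hc : ((G.neighborFinset x).card : ℝ) = G.degree x := rfl
      rw [hc] at this
      linarith
    have hs : ((BT.att a b).size : ℝ) = a.size + b.size := by
      simp only [BT.size]; push_cast; ring
    rw [hs]
    linarith

theorem entropy : S_entropy := by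
  intro W _ G _ hd hyp t ht
  rcases isEmpty_or_nonempty W with hW | hW
  · simp
  have hD : (0 : ℝ) < ∑ v, (G.degree v : ℝ) := by
    refine Finset.sum_pos (fun v _ => ?_) univ_nonempty
    exact_mod_cast hd v
  have hE : (∑ v, (G.degree v : ℝ)) * Real.log 2 ≤ EE G := by
    have h1 : ((2 : ℝ) ^ (∑ v, G.degree v)) ≤ ∏ v, (G.degree v : ℝ) ^ (G.degree v) := by
      exact_mod_cast hyp
    have h2 := Real.log_le_log (by positivity) h1
    rw [Real.log_pow, Real.log_prod (fun v _ => by
      have := hd v
      have : (0 : ℝ) < G.degree v := by exact_mod_cast this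
      positivity)] at h2
    push_cast at h2
    refine h2.trans (le_of_eq ?_)
    unfold EE
    exact Finset.sum_congr rfl fun v _ => Real.log_pow _ _
  cases t with
  | pt => exact absurd rfl ht
  | att a b =>
    -- arcs
    let s : Finset (Σ _ : W, W) := univ.sigma (fun x => G.neighborFinset x)
    have hsne : s.Nonempty := by
      obtain ⟨x⟩ := hW
      obtain ⟨y, hy⟩ := nbr_nonempty G hd x
      exact ⟨⟨x, y⟩, Finset.mem_sigma.mpr ⟨mem_univ _, hy⟩⟩
    have hcard : (s.card : ℝ) = ∑ v, (G.degree v : ℝ) := by
      rw [Finset.card_sigma]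
      push_cast
      rfl
    have key := jens s (fun p => h G a p.1 * h G b p.2)
      (fun p _ => mul_pos (h_pos G hd a p.1) (h_pos G hd b p.2)) hsne
    have htot : ∑ p ∈ s, h G a p.1 * h G b p.2 = (tot G (.att a b) : ℝ) := by
      rw [Finset.sum_sigma]
      unfold tot
      push_cast
      refine Finset.sum_congr rfl fun x _ => ?_
      have := h_att G a b x
      unfold h at this ⊢
      rw [this, Finset.mul_sum]
    have hlog : ∑ p ∈ s, Real.log (h G a p.1 * h G b p.2) = LL G a + LL G b := by
      rw [Finset.sum_sigma]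
      unfold LL
      rw [← exch G (fun y => Real.log (h G b y)), ← Finset.sum_add_distrib]
      refine Finset.sum_congr rfl fun x _ => ?_
      have : ∀ y ∈ G.neighborFinset x, Real.log (h G a x * h G b y) =
          Real.log (h G a x) + Real.log (h G b y) := fun y _ =>
        Real.log_mul (h_pos G hd a x).ne' (h_pos G hd b y).ne'
      rw [Finset.sum_congr rfl this, Finset.sum_add_distrib, Finset.sum_const, nsmul_eq_mul]
      rfl
    rw [htot, hlog, hcard] at key
    have ha := LL_ge G hd a
    have hb := LL_ge G hd b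
    have hsa : (1 : ℝ) ≤ a.size := by
      have : ∀ t : BT, 1 ≤ t.size := by
        intro t
        induction t with
        | pt => exact le_refl _
        | att a b iha ihb => simp only [BT.size]; omega
      exact_mod_cast this a
    have hsb : (1 : ℝ) ≤ b.size := by
      have : ∀ t : BT, 1 ≤ t.size := by
        intro t
        induction t with
        | pt => exact le_refl _
        | att a b iha ihb => simp only [BT.size]; omega
      exact_mod_cast this b
    have htp : (0 : ℝ) < tot G (.att a b) := by
      rw [← htot]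
      exact Finset.sum_pos (fun p _ => mul_pos (h_pos G hd a p.1) (h_pos G hd b p.2)) hsne
    set D := ∑ v, (G.degree v : ℝ) with hDdef
    -- (|a| + |b| - 2) log 2 ≤ log tot - log D
    have h5 : D * (((a.size : ℝ) + b.size - 2) * Real.log 2) ≤
        D * (Real.log (tot G (.att a b)) - Real.log D) := by
      have e1 : ((a.size : ℝ) - 1) * (D * Real.log 2) ≤ ((a.size : ℝ) - 1) * EE G :=
        mul_le_mul_of_nonneg_left hE (by linarith)
      have e2 : ((b.size : ℝ) - 1) * (D * Real.log 2) ≤ ((b.size : ℝ) - 1) * EE G :=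
        mul_le_mul_of_nonneg_left hE (by linarith)
      nlinarith
    have h6 := le_of_mul_le_mul_left h5 hD
    rw [← Real.log_div htp.ne' hD.ne'] at h6
    have h7 : (2 : ℝ) ^ ((a.size : ℝ) + b.size - 2) ≤ tot G (.att a b) / D := by
      rw [← Real.log_le_log_iff (by positivity) (by positivity), Real.log_rpow two_pos]
      exact h6
    have h8 : (2 : ℝ) ^ ((a.size : ℝ) + b.size - 2) * 2 = 2 ^ ((BT.att a b).size - 1) := by
      have e0 : (BT.att a b).size - 1 = (a.size + b.size - 2) + 1 := by
        have h1 : 1 ≤ a.size := by exact_mod_cast hsa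
        have h2 : 1 ≤ b.size := by exact_mod_cast hsb
        simp only [BT.size]; omega
      rw [e0, pow_succ]
      congr 1
      rw [← Real.rpow_natCast]
      congr 1
      have h1 : 1 ≤ a.size := by exact_mod_cast hsa
      have h2 : 1 ≤ b.size := by exact_mod_cast hsb
      rw [Nat.cast_sub (by omega)]
      push_cast
      ring
    rw [le_div_iff₀ hD] at h7
    have h9 : D * 2 ^ ((BT.att a b).size - 1) ≤ 2 * (tot G (.att a b) : ℝ) := by
      rw [← h8]
      nlinarith
    have h10 : (((∑ v, G.degree v) * 2 ^ ((BT.att a b).size - 1) : ℕ) : ℝ) ≤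
        ((2 * tot G (.att a b) : ℕ) : ℝ) := by
      push_cast
      rw [← hDdef]
      exact h9
    exact_mod_cast h10

end

end Pool.Agent.W272.HTENT
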