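import Pool.Agent.W106.HT.Stm

/-! HT-REP: every finite tree, with any choice of the root, is given by a term. -/

set_option autoImplicit false

namespace Pool.Agent.W272.HTREP

open Pool.Agent.W106.HT

/-- attach a leaf at a vertex -/
def ins : (t : BT) → t.V → BT
  | .pt, _ => .att .pt .pt
  | .att a b, Sum.inl x => .att (ins a x) b
  | .att a b, Sum.inr y => .att a (ins b y)

/-- adjacency after adding the vertex `none` adjacent to `p` only -/
def NA {X : Type} (R : X → X → Prop) (p : X) : Option X → Option X → Prop
  | some u, some v => R u v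
  | some u, none => u = p
  | none, some v => v = p
  | none, none => False

def f1 (A B : Type) : Option A ⊕ B ≃ Option (A ⊕ B) where
  toFun
    | Sum.inl none => none
    | Sum.inl (some a) => some (Sum.inl a)
    | Sum.inr b => some (Sum.inr b)
  invFun
    | none => Sum.inl none
    | some (Sum.inl a) => Sum.inl (some a)
    | some (Sum.inr b) => Sum.inr b
  left_inv := by rintro ((_ | a) | b) <;> rfl
  right_inv := by rintro (_ | (a | b)) <;> rfl

def f2 (A B : Type) : A ⊕ Option B ≃ Option (A ⊕ B) where
  toFun
    | Sum.inl a => some (Sum.inl a)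
    | Sum.inr none => none
    | Sum.inr (some b) => some (Sum.inr b)
  invFun
    | none => Sum.inr none
    | some (Sum.inl a) => Sum.inl a
    | some (Sum.inr b) => Sum.inr (some b)
  left_inv := by rintro (a | (_ | b)) <;> rfl
  right_inv := by rintro (_ | (a | b)) <;> rfl

theorem ins_spec : ∀ (t : BT) (p : t.V), ∃ e : (ins t p).V ≃ Option t.V,
    e (ins t p).root = some t.root ∧ ∀ x y, (ins t p).Adj x y ↔ NA t.Adj p (e x) (e y)
  | .pt, _ => by
    refine ⟨{ toFun := Sum.elim (fun _ => some ()) (fun _ => none)
              invFun := fun o => o.elim (Sum.inr ()) (fun _ => Sum.inl ())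
              left_inv := by rintro (x | x) <;> rfl
              right_inv := by rintro (_ | x) <;> rfl }, rfl, ?_⟩
    rintro (x | x) (y | y)
    · exact Iff.rfl
    · exact ⟨fun _ => rfl, fun _ => ⟨rfl, rfl⟩⟩
    · exact ⟨fun _ => rfl, fun _ => ⟨rfl, rfl⟩⟩
    · exact Iff.rfl
  | .att a b, Sum.inl p => by
    obtain ⟨e, he, hadj⟩ := ins_spec a p
    refine ⟨(Equiv.sumCongr e (Equiv.refl b.V)).trans (f1 a.V b.V), ?_, ?_⟩
    · show f1 a.V b.V (Sum.inl (e (ins a p).root)) = _
      rw [he]; rfl
    · have hr : ∀ x, x = (ins a p).root ↔ e x = some a.root := fun x => by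
        rw [← he, e.injective.eq_iff]
      rintro (x | x) (y | y)
      · show (ins a p).Adj x y ↔ NA _ _ (f1 a.V b.V (Sum.inl (e x))) (f1 a.V b.V (Sum.inl (e y)))
        rw [hadj]
        rcases e x with _ | u <;> rcases e y with _ | v
        · exact Iff.rfl
        · exact ⟨fun h => congrArg Sum.inl h, fun h => Sum.inl.inj h⟩
        · exact ⟨fun h => congrArg Sum.inl h, fun h => Sum.inl.inj h⟩
        · exact Iff.rfl
      · show (x = (ins a p).root ∧ y = b.root) ↔
          NA _ _ (f1 a.V b.V (Sum.inl (e x))) (some (Sum.inr y))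
        rw [hr]
        rcases e x with _ | u
        · constructor
          · rintro ⟨h, _⟩; exact absurd h (by simp)
          · intro h; exact absurd h (fun h => Sum.inr_ne_inl h)
        · show (some u = some a.root ∧ y = b.root) ↔ (u = a.root ∧ y = b.root)
          rw [Option.some.injEq]
      · show (x = b.root ∧ y = (ins a p).root) ↔
          NA _ _ (some (Sum.inr x)) (f1 a.V b.V (Sum.inl (e y)))
        rw [hr]
        rcases e y with _ | u
        · constructor
          · rintro ⟨_, h⟩; exact absurd h (by simp)
          · intro h; exact absurd h (fun h => Sum.inr_ne_inl h)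
        · show (x = b.root ∧ some u = some a.root) ↔ (x = b.root ∧ u = a.root)
          rw [Option.some.injEq]
      · exact Iff.rfl
  | .att a b, Sum.inr p => by
    obtain ⟨e, he, hadj⟩ := ins_spec b p
    refine ⟨(Equiv.sumCongr (Equiv.refl a.V) e).trans (f2 a.V b.V), rfl, ?_⟩
    have hr : ∀ x, x = (ins b p).root ↔ e x = some b.root := fun x => by
      rw [← he, e.injective.eq_iff]
    rintro (x | x) (y | y)
    · exact Iff.rfl
    · show (x = a.root ∧ y = (ins b p).root) ↔
        NA _ _ (some (Sum.inl x)) (f2 a.V b.V (Sum.inr (e y)))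
      rw [hr]
      rcases e y with _ | u
      · constructor
        · rintro ⟨_, h⟩; exact absurd h (by simp)
        · intro h; exact absurd h (fun h => Sum.inl_ne_inr h)
      · show (x = a.root ∧ some u = some b.root) ↔ (x = a.root ∧ u = b.root)
        rw [Option.some.injEq]
    · show (x = (ins b p).root ∧ y = a.root) ↔
        NA _ _ (f2 a.V b.V (Sum.inr (e x))) (some (Sum.inl y))
      rw [hr]
      rcases e x with _ | u
      · constructor
        · rintro ⟨h, _⟩; exact absurd h (by simp)
        · intro h; exact absurd h (fun h => Sum.inl_ne_inr h)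
      · show (some u = some b.root ∧ y = a.root) ↔ (u = b.root ∧ y = a.root)
        rw [Option.some.injEq]
    · show (ins b p).Adj x y ↔ NA _ _ (f2 a.V b.V (Sum.inr (e x))) (f2 a.V b.V (Sum.inr (e y)))
      rw [hadj]
      rcases e x with _ | u <;> rcases e y with _ | v
      · exact Iff.rfl
      · exact ⟨fun h => congrArg Sum.inr h, fun h => Sum.inr.inj h⟩
      · exact ⟨fun h => congrArg Sum.inr h, fun h => Sum.inr.inj h⟩
      · exact Iff.rfl

theorem rep_aux : ∀ (n : ℕ) (W : Type) [Fintype W] (T : SimpleGraph W), Fintype.card W = n →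
    T.IsTree → ∀ r : W, ∃ τ : BT, ∃ e : τ.graph ≃g T, e τ.root = r := by
  classical
  intro n
  induction n using Nat.strong_induction_on with
  | _ n ih =>
    intro W _ T hn hT r
    rcases subsingleton_or_nontrivial W with hs | hnt
    · let eq : BT.pt.V ≃ W :=
        ⟨fun _ => r, fun _ => (), fun _ => rfl, fun _ => Subsingleton.elim _ _⟩
      refine ⟨.pt, { toEquiv := eq, map_rel_iff' := ?_ }, rfl⟩
      intro x y
      constructor
      · intro h; exact absurd h (T.irrefl)
      · intro h; exact h.elim
    · obtain ⟨v, hvr, hdeg⟩ : ∃ v, v ≠ r ∧ T.degree v = 1 := by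
        obtain ⟨u, v, huv, hu, hv⟩ := hT.exists_ne_and_degree_eq_one
        by_cases h : u = r
        · exact ⟨v, fun h' => huv (h.trans h'.symm), hv⟩
        · exact ⟨u, h, hu⟩
      have hT' : (T.induce {v}ᶜ).IsTree :=
        ⟨hT.1.induce_compl_singleton_of_degree_eq_one hdeg, hT.2.induce _⟩
      obtain ⟨w, hvw, hw⟩ := SimpleGraph.degree_eq_one_iff_existsUnique_adj.mp hdeg
      have hcard : Fintype.card ({v}ᶜ : Set W) < n := by
        rw [← hn]
        exact Fintype.card_subtype_lt (x := v) (by simp)
      have hwv : w ∈ ({v}ᶜ : Set W) := by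
        intro h
        rw [Set.mem_singleton_iff] at h
        exact T.irrefl (h ▸ hvw)
      have hrv : r ∈ ({v}ᶜ : Set W) := by
        intro h
        rw [Set.mem_singleton_iff] at h
        exact hvr h.symm
      obtain ⟨τ', e', he'⟩ := ih _ hcard ({v}ᶜ : Set W) (T.induce {v}ᶜ) rfl hT' ⟨r, hrv⟩
      obtain ⟨e, he, hadj⟩ := ins_spec τ' (e'.symm ⟨w, hwv⟩)
      let g : Option τ'.V → W := fun o => o.elim v (fun x => (e' x).1)
      have hg : Function.Bijective g := by
        constructor
        · rintro (_ | x) (_ | y) h
          · rfl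
          · exact absurd (h.symm : (e' y).1 = v) (e' y).2
          · exact absurd (h : (e' x).1 = v) (e' x).2
          · exact congrArg some (e'.injective (Subtype.ext h))
        · intro z
          by_cases hz : z = v
          · exact ⟨none, hz.symm⟩
          · refine ⟨some (e'.symm ⟨z, hz⟩), ?_⟩
            show (e' (e'.symm ⟨z, hz⟩)).1 = z
            rw [e'.apply_symm_apply]
      have hadjv : ∀ z : τ'.V, T.Adj v (e' z).1 ↔ z = e'.symm ⟨w, hwv⟩ := by
        intro z
        constructor
        · intro h
          have h1 := hw _ h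
          apply e'.injective
          rw [e'.apply_symm_apply]
          exact Subtype.ext h1
        · rintro rfl
          rw [e'.apply_symm_apply]
          exact hvw
      have key : ∀ o o', T.Adj (g o) (g o') ↔ NA τ'.Adj (e'.symm ⟨w, hwv⟩) o o' := by
        rintro (_ | x) (_ | y)
        · exact ⟨fun h => absurd h T.irrefl, fun h => h.elim⟩
        · exact hadjv y
        · exact (T.adj_comm _ _).trans (hadjv x)
        · exact e'.map_rel_iff
      refine ⟨ins τ' (e'.symm ⟨w, hwv⟩),
        { toEquiv := e.trans (Equiv.ofBijective g hg), map_rel_iff' := ?_ }, ?_⟩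
      · intro x y
        exact (key (e x) (e y)).trans (hadj x y).symm
      · show g (e _) = r
        rw [he]
        show (e' τ'.root).1 = r
        rw [he']

theorem rep : S_rep := fun W _ T hT r => rep_aux _ W T rfl hT r

end Pool.Agent.W272.HTREP
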