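import Pool.Agent.W272.BSKAPP

/-! The scalar of the negative clasp. -/

set_option autoImplicit false

namespace Pool.Agent.W272.BSK

open Matrix Finset Pool.Agent.H550R3.Jones Pool.Agent.W719.BS

theorem crossN_int {u : ℂ} (hu : Gen u) (N : ℕ) :
    IsInt (W (u ^ 2) N) (W (u ^ 2) N) (crossN N (u ^ 2)) := by
  rw [(Pool.Agent.H559R3.J.taskCross u hu N).2]
  have hm := (Pool.Agent.H345J.taskMod (u ^ 2) (pow_ne_zero 2 hu.1)).1 N
  obtain ⟨h1, h2⟩ := Pool.Agent.H345J.taskInv u hu _ _ _ _ hm hm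
  exact isInt_smul _ (Pool.Agent.H309R4.Jones.isInt_inv_gen hu
    (Pool.Agent.H345J.taskInt u hu _ _ _ _ hm hm) h1 h2)

theorem br_inv (v : ℂ) (k : ℤ) : br v⁻¹ k = -br v k := by
  unfold br
  rw [_root_.inv_zpow', _root_.inv_zpow', neg_neg]
  ring

theorem brf_inv (v : ℂ) (n : ℕ) : brf v⁻¹ n = (-1) ^ n * brf v n := by
  unfold brf
  simp only [br_inv]
  rw [Finset.prod_neg, card_range]

theorem sumlemN (N d : ℕ) (hd : d < N) (F : Fin N × Fin N → ℂ) (G : ℕ → ℂ)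
    (h : ∀ q, F q = if (q.1 : ℕ) + q.2 = d then G q.2 else 0) :
    ∑ q : Fin N × Fin N, F q = ∑ m ∈ range (d + 1), G m := by
  rw [Finset.sum_congr rfl fun q _ => h q, Fintype.sum_prod_type, Finset.sum_comm]
  have h1 : ∀ y : Fin N, ∑ x : Fin N, (if (x : ℕ) + y = d then G y else 0) =
      if (y : ℕ) ≤ d then G y else 0 := by
    intro y
    have hy := y.2
    by_cases h : (y : ℕ) ≤ d
    · rw [if_pos h, Finset.sum_eq_single ⟨d - y, by omega⟩]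
      · rw [if_pos]; show d - (y : ℕ) + y = d; omega
      · intro x _ hx
        rw [if_neg]
        intro h'
        apply hx
        apply Fin.ext
        show (x : ℕ) = d - y
        omega
      · intro h; exact absurd (mem_univ _) h
    · rw [if_neg h]
      refine Finset.sum_eq_zero fun x _ => if_neg ?_
      omega
  rw [Finset.sum_congr rfl fun x _ => h1 x,
    Fin.sum_univ_eq_sum_range (fun x => if x ≤ d then G x else 0) N]
  obtain ⟨e, rfl⟩ : ∃ e, N = (d + 1) + e := ⟨N - (d + 1), by omega⟩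
  rw [Finset.sum_range_add, Finset.sum_eq_zero (s := range e), add_zero]
  · refine Finset.sum_congr rfl fun m hm => ?_
    rw [Finset.mem_range] at hm
    rw [if_pos (by omega)]
  · intro x _
    rw [if_neg (by omega)]

/-- the entry of the square of the negative crossing -/
theorem crossN_sq (v : ℂ) (N : ℕ) (hbr : ∀ k : ℕ, 0 < k → k < N → br v k ≠ 0)
    (d e k z : Fin N) (c : ℕ) (hz : (z : ℕ) = N - 1) (hce : (d : ℕ) + e = N - 1 + k)
    (hc : (e : ℕ) = c + k) :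
    (crossN N v * crossN N v) (d, e) (z, k) =
      ((-1) ^ c * v ^ (((N : ℤ) - 1) * (1 + (k : ℕ) + (N - 1 : ℕ)) - 2 * (k : ℕ) * (N - 1 : ℕ)) /
        v ^ (c * (c - 1) / 2) * (brf v (c + k) / (brf v k * brf v c)) * brf v c) *
      v ^ (((N : ℤ) - 1) * (1 + (N - 1 : ℕ) + (k : ℕ)) - 2 * (N - 1 : ℕ) * (k : ℕ)) := by
  have hb0 : brf v 0 = 1 := by simp [brf]
  have hbz : brf v (N - 1) ≠ 0 := brf_ne hbr (by have := z.2; omega)
  rw [Matrix.mul_apply, Finset.sum_eq_single (k, z)]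
  · have e1 : crossN N v (k, z) (z, k) =
        v ^ (((N : ℤ) - 1) * (1 + (N - 1 : ℕ) + (k : ℕ)) - 2 * (N - 1 : ℕ) * (k : ℕ)) := by
      unfold crossN
      rw [if_pos ⟨by simp [add_comm], le_refl _⟩]
      simp only [hz, Nat.sub_self, hb0]
      simp [hbz]
    have e2 : crossN N v (d, e) (k, z) =
        (-1) ^ c * v ^ (((N : ℤ) - 1) * (1 + (k : ℕ) + (N - 1 : ℕ)) -
            2 * (k : ℕ) * (N - 1 : ℕ)) /
        v ^ (c * (c - 1) / 2) * (brf v (c + k) / (brf v k * brf v c)) * brf v c := by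
      unfold crossN
      rw [if_pos ⟨by simp only; omega, by simp only; omega⟩]
      simp only [hz, hc, Nat.add_sub_cancel]
      congr 1
      unfold brf
      refine Finset.prod_congr rfl fun t _ => ?_
      congr 1
      have : 0 < N := by have := z.2; omega
      push_cast [Nat.cast_sub (show 1 ≤ N from this)]
      ring
    rw [e1, e2]
  · rintro ⟨s1, s2⟩ _ hs
    have : crossN N v (s1, s2) (z, k) = 0 := by
      unfold crossN
      rw [if_neg]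
      rintro ⟨h1, h2⟩
      simp only at h1 h2
      apply hs
      have := s2.2
      rw [Prod.mk.injEq]
      exact ⟨Fin.ext (by omega), Fin.ext (by omega)⟩
    rw [this, mul_zero]
  · intro h; exact absurd (mem_univ _) h

noncomputable def GN (N : ℕ) (v a : ℂ) (c d m : ℕ) : ℂ :=
  cup N v 0 / cup N v m *
    (((-1) ^ c * v ^ (((N : ℤ) - 1) * (1 + (d - m : ℕ) + (N - 1 : ℕ)) -
      2 * (d - m : ℕ) * (N - 1 : ℕ)) /
        v ^ (c * (c - 1) / 2) * (brf v (c + (d - m)) / (brf v (d - m) * brf v c)) * brf v c) *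
      v ^ (((N : ℤ) - 1) * (1 + (N - 1 : ℕ) + (d - m : ℕ)) - 2 * (N - 1 : ℕ) * (d - m : ℕ))) *
    (a * ((-1) ^ (d - m) * (brf v (N - 1 - (d - m)) * brf v (N - 1 - m)) *
        v ^ ((2 * (d : ℕ) - (N : ℤ)) * (d - m : ℕ) - (d - m : ℕ) ^ 2)))

theorem termN (v : ℂ) (hv : v ≠ 0) (a : ℂ) (c m m' N : ℕ) (hN : N = c + m + m' + 1)
    (hb : ∀ n < N, brf v n ≠ 0) :
    GN N v a c (m + m') m =
    ((-1) ^ (N - 1 - c) * v⁻¹ ^ (-((N : ℤ) - 1) * (c + 1) - ((c * (c + 3) / 2 : ℕ) : ℤ)) *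
      brf v⁻¹ c * ((brf v⁻¹ (c + m) / (brf v⁻¹ c * brf v⁻¹ m)) *
      (brf v⁻¹ (N - 1 - m) / (brf v⁻¹ c * brf v⁻¹ (N - 1 - m - c))) *
        v⁻¹ ^ (-(2 * (m : ℤ) * N)))) *
      (a * ((-1) ^ 0 * (brf v (N - 1 - 0) * brf v c) *
        v ^ ((2 * (m + m' : ℕ) - (N : ℤ)) * (0 : ℕ) - (0 : ℕ) ^ 2))) := by
  obtain ⟨hT, hT2⟩ := tri c
  rw [hT]
  unfold GN
  generalize hTT : c * (c - 1) / 2 = T at hT hT2 ⊢
  have e0 : m + m' - m = m' := by omega
  have e1 : N - 1 - 0 = c + m + m' := by omega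
  have e1' : N - 1 = c + m + m' := by omega
  have e2 : N - 1 - m = c + m' := by omega
  have e3 : N - 1 - m - c = m' := by omega
  have e4 : N - 1 - c = m + m' := by omega
  have e6 : N - 1 - m' = c + m := by omega
  have h0 : brf v 0 = 1 := by simp [brf]
  unfold cup
  rw [e0, e3, e4, e2, e6, e1, h0, e1']
  simp only [brf_inv]
  have hk := hb (c + m') (by omega)
  have hk0 := hb (c + m) (by omega)
  have hk1 := hb m (by omega)
  have hk2 := hb m' (by omega)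
  have hk3 := hb c (by omega)
  have key : v ^ (((0 : ℕ) : ℤ) * ((N : ℤ) - 2 - (0 : ℕ))) *
      (v ^ (((N : ℤ) - 1) * (1 + (m' : ℕ) + (c + m + m' : ℕ)) - 2 * (m' : ℕ) * (c + m + m' : ℕ)) *
      v ^ (((N : ℤ) - 1) * (1 + (c + m + m' : ℕ) + (m' : ℕ)) - 2 * (c + m + m' : ℕ) * (m' : ℕ))) *
      v ^ ((2 * (m + m' : ℕ) - (N : ℤ)) * (m' : ℕ) - (m' : ℕ) ^ 2) =
      v⁻¹ ^ (-((N : ℤ) - 1) * (c + 1) - ((T : ℤ) + 2 * c)) * v⁻¹ ^ (-(2 * (m : ℤ) * N)) *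
        v ^ ((2 * (m + m' : ℕ) - (N : ℤ)) * (0 : ℕ) - (0 : ℕ) ^ 2) *
        v ^ ((m : ℤ) * ((N : ℤ) - 2 - (m : ℕ))) * v ^ T := by
    rw [← zpow_natCast v T]
    simp only [_root_.inv_zpow', ← zpow_add₀ hv]
    congr 1
    rw [hN]
    push_cast
    linear_combination -hT2
  have hx : v ^ ((m : ℤ) * ((N : ℤ) - 2 - (m : ℕ))) ≠ 0 := zpow_ne_zero _ hv
  have hy : v ^ T ≠ 0 := pow_ne_zero _ hv
  generalize v ^ (((0 : ℕ) : ℤ) * ((N : ℤ) - 2 - (0 : ℕ))) = x1 at *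
  generalize v ^ (((N : ℤ) - 1) * (1 + (m' : ℕ) + (c + m + m' : ℕ)) -
    2 * (m' : ℕ) * (c + m + m' : ℕ)) = x2 at *
  generalize v ^ (((N : ℤ) - 1) * (1 + (c + m + m' : ℕ) + (m' : ℕ)) -
    2 * (c + m + m' : ℕ) * (m' : ℕ)) = x3 at *
  generalize v ^ ((2 * (m + m' : ℕ) - (N : ℤ)) * (m' : ℕ) - (m' : ℕ) ^ 2) = x4 at *
  generalize v⁻¹ ^ (-((N : ℤ) - 1) * (c + 1) - ((T : ℤ) + 2 * c)) = x5 at *
  generalize v⁻¹ ^ (-(2 * (m : ℤ) * N)) = x6 at *
  generalize v ^ ((2 * (m + m' : ℕ) - (N : ℤ)) * (0 : ℕ) - (0 : ℕ) ^ 2) = x7 at *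
  generalize v ^ ((m : ℤ) * ((N : ℤ) - 2 - (m : ℕ))) = x8 at *
  generalize v ^ T = x9 at *
  generalize brf v (c + m') = b1 at *
  generalize brf v (c + m + m') = b2 at *
  generalize brf v (c + m) = b3 at *
  generalize brf v m = b4 at *
  generalize brf v m' = b5 at *
  generalize brf v c = b6 at *
  have sq : ∀ n : ℕ, ((-1 : ℂ) ^ n) * (-1) ^ n = 1 := fun n => by
    rw [← mul_pow]; norm_num
  have s1 := sq c
  have s2 := sq m
  have s3 := sq m'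
  have hs1 : ((-1 : ℂ) ^ c) ≠ 0 := by intro h; rw [h] at s1; simp at s1
  have hs2 : ((-1 : ℂ) ^ m) ≠ 0 := by intro h; rw [h] at s2; simp at s2
  have hs3 : ((-1 : ℂ) ^ m') ≠ 0 := by intro h; rw [h] at s3; simp at s3
  simp only [pow_add, pow_zero, one_mul]
  generalize ((-1 : ℂ) ^ c) = y1 at *
  generalize ((-1 : ℂ) ^ m) = y2 at *
  generalize ((-1 : ℂ) ^ m') = y3 at *
  have f1 : b2 * x1 / (y2 * (b4 * b1) * x8) *
      (y1 * x2 / x9 * (b1 / (b5 * b6)) * b6 * x3) * (a * (y3 * (b3 * b1) * x4)) =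
      (a * b2 * b3 * b1 / (b4 * b5)) * (y1 * y3 / y2) * (x1 * (x2 * x3) * x4) / (x8 * x9) := by
    field_simp
  have f2 : y2 * y3 * x5 * (y1 * b6) * ((y1 * y2 * b3) / (y1 * b6 * (y2 * b4)) *
      ((y1 * y3 * b1) / (y1 * b6 * (y3 * b5))) * x6) * (a * (b2 * b6 * x7)) =
      (a * b2 * b3 * b1 / (b4 * b5)) * (y1 * y3 * (y2 * y2) / y2) * (x5 * x6 * x7 * x8 * x9) /
        (x8 * x9) := by
    field_simp
  rw [f1, f2, key, s2, mul_one]

theorem highest {N : ℕ} {v : ℂ} (hbr : ∀ k : ℕ, 0 < k → k < N → br v k ≠ 0) (hv : v ≠ 0)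
    {n : ℕ} (R : Matrix (Fin N × Fin N) (Fin N × Fin N) ℂ)
    (B : Matrix (Fin N × Fin N) (Fin n) ℂ) (j : Fin n) (d : Fin N) (a : ℂ)
    (hR : R = rot N v (crossN N v * crossN N v))
    (hB : ∀ p : Fin N × Fin N, B p j = if (p.1 : ℕ) + p.2 = d then
      a * ((-1) ^ (p.1 : ℕ) * (brf v (N - 1 - p.1) * brf v (N - 1 - p.2)) *
        v ^ ((2 * (d : ℕ) - (N : ℤ)) * (p.1 : ℕ) - (p.1 : ℕ) ^ 2)) else 0)
    (p : Fin N × Fin N) (hp1 : (p.1 : ℕ) = 0) (hp2 : (p.2 : ℕ) = d) :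
    (R * B) p j = kapP N v⁻¹ (N - 1 - d) * B p j := by
  obtain ⟨⟨p1, h1⟩, ⟨p2, h2⟩⟩ := p
  simp only at hp1 hp2
  subst hp1
  subst hp2
  have hd := d.2
  rw [Matrix.mul_apply]
  have hf : ∀ q : Fin N × Fin N, R (⟨0, h1⟩, ⟨d, h2⟩) q * B q j =
      if (q.1 : ℕ) + q.2 = d then GN N v a (N - 1 - d) d q.2 else 0 := by
    rintro ⟨⟨k, hk⟩, ⟨l, hl⟩⟩
    rw [hB]
    simp only
    by_cases h : k + l = d
    · rw [if_pos h, if_pos h, hR]
      unfold rot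
      simp only
      rw [crossN_sq v N hbr ⟨d, h2⟩ (Fin.rev ⟨l, hl⟩) ⟨k, hk⟩ (Fin.rev ⟨0, h1⟩) (N - 1 - d)
        (by simp [Fin.rev]) (by simp [Fin.rev]; omega) (by simp [Fin.rev]; omega)]
      have e1 : (d : ℕ) - l = k := by omega
      unfold GN
      rw [e1]
    · rw [if_neg h, if_neg h, mul_zero]
  rw [sumlemN N d hd _ _ hf, hB, if_pos (by simp only; omega)]
  unfold kapP
  have hNd : N - (N - 1 - d) = d + 1 := by omega
  rw [hNd, mul_comm _ (∑ m ∈ range (d + 1), _), Finset.sum_mul, Finset.sum_mul]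
  refine Finset.sum_congr rfl fun m hm => ?_
  rw [Finset.mem_range] at hm
  have := termN v hv a (N - 1 - d) m (d - m) N (by omega) (fun n hn => brf_ne hbr hn)
  have e5 : m + (d - m) = (d : ℕ) := by omega
  rw [e5] at this
  rw [this]
  ring

theorem SKAPN : S_KAPN := by
  intro hrot hvec u hu N φ ψ hD d
  have hv : u ^ 2 ≠ 0 := pow_ne_zero 2 hu.1
  have hbr : ∀ k : ℕ, 0 < k → k < N → br (u ^ 2) k ≠ 0 := fun k hk _ => hu.2 k hk
  obtain ⟨h1, _, h2⟩ := hvec u hu N φ ψ hD d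
  have hI := Pool.Agent.H309R4.Jones.isInt_mul (crossN_int hu N) (crossN_int hu N)
  obtain ⟨r, hr⟩ := h1 _ (hrot N (u ^ 2) hv hbr _ hI)
  obtain ⟨a, ha, hφ⟩ := h2
  have hd := d.2
  have hcc : 0 < cc N d := by unfold cc; omega
  have hlow := highest hbr hv _ (φ d) ⟨0, hcc⟩ d a rfl
    (fun p => hφ p ⟨0, hcc⟩ rfl) (⟨0, by omega⟩, ⟨d, by omega⟩) rfl rfl
  have hne : φ d (⟨0, by omega⟩, ⟨d, by omega⟩) ⟨0, hcc⟩ ≠ 0 := by
    rw [hφ _ _ rfl, if_pos (by simp only; omega)]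
    refine mul_ne_zero ha (mul_ne_zero (mul_ne_zero ?_ (mul_ne_zero ?_ ?_)) (zpow_ne_zero _ hv))
    · exact pow_ne_zero _ (by norm_num)
    · exact brf_ne hbr (by simp only; omega)
    · exact brf_ne hbr (by simp only; omega)
  rw [hr] at hlow ⊢
  rw [Matrix.smul_apply, smul_eq_mul] at hlow
  rw [mul_right_cancel₀ hne hlow]

end Pool.Agent.W272.BSK
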