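import Pool.Agent.W719.BS.Stubs
import Pool.Agent.H345J.Tasks
import Pool.Agent.H559R3.J.Cross
import Pool.Agent.H309R4.Jones.FigAll

/-! The scalars of the clasps. -/

set_option autoImplicit false

namespace Pool.Agent.W272.BSK

open Matrix Finset Pool.Agent.H550R3.Jones Pool.Agent.W719.BS

theorem isInt_smul {ι : Type} [Fintype ι] [DecidableEq ι] {M : WM ι} {A : Matrix ι ι ℂ} (a : ℂ)
    (hA : IsInt M M A) : IsInt M M (a • A) where
  e := by rw [Matrix.smul_mul, Matrix.mul_smul, hA.e]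
  f := by rw [Matrix.smul_mul, Matrix.mul_smul, hA.f]
  k := by
    intro i j h
    refine hA.k i j fun h0 => h ?_
    rw [Matrix.smul_apply, h0, smul_zero]

theorem crossP_int {u : ℂ} (hu : Gen u) (N : ℕ) :
    IsInt (W (u ^ 2) N) (W (u ^ 2) N) (crossP N (u ^ 2)) := by
  rw [(Pool.Agent.H559R3.J.taskCross u hu N).1]
  have hm := (Pool.Agent.H345J.taskMod (u ^ 2) (pow_ne_zero 2 hu.1)).1 N
  exact isInt_smul _ (Pool.Agent.H345J.taskInt u hu _ _ _ _ hm hm)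

theorem brf_add (v : ℂ) (M c : ℕ) :
    brf v (M + c) = brf v M * ∏ t ∈ range c, br v ((M : ℤ) + 1 + t) := by
  unfold brf
  rw [Finset.prod_range_add]
  congr 1
  refine Finset.prod_congr rfl fun t _ => ?_
  congr 1
  push_cast
  ring

theorem brf_ne {v : ℂ} {N : ℕ} (hbr : ∀ k : ℕ, 0 < k → k < N → br v k ≠ 0) {n : ℕ} (hn : n < N) :
    brf v n ≠ 0 := by
  unfold brf
  rw [Finset.prod_ne_zero_iff]
  intro j hj
  rw [Finset.mem_range] at hj
  have := hbr (j + 1) (by omega) (by omega)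
  push_cast at this
  exact this

theorem sumlem (N d : ℕ) (hd : d < N) (G : ℕ → ℂ) :
    ∑ q : Fin N × Fin N, (if (q.1 : ℕ) + q.2 + d + 2 = 2 * N then G q.1 else 0) =
      ∑ m ∈ range (d + 1), G (N - 1 - d + m) := by
  rw [Fintype.sum_prod_type]
  have h1 : ∀ x : Fin N, ∑ y : Fin N, (if (x : ℕ) + y + d + 2 = 2 * N then G x else 0) =
      if N - 1 - d ≤ (x : ℕ) then G x else 0 := by
    intro x
    have hx := x.2
    by_cases h : N - 1 - d ≤ (x : ℕ)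
    · rw [if_pos h, Finset.sum_eq_single ⟨2 * N - 2 - d - x, by omega⟩]
      · rw [if_pos]; show (x : ℕ) + (2 * N - 2 - d - x) + d + 2 = 2 * N; omega
      · intro y _ hy
        rw [if_neg]
        intro h'
        apply hy
        apply Fin.ext
        show (y : ℕ) = 2 * N - 2 - d - x
        omega
      · intro h; exact absurd (mem_univ _) h
    · rw [if_neg h]
      refine Finset.sum_eq_zero fun y _ => if_neg ?_
      have := y.2
      omega
  rw [Finset.sum_congr rfl fun x _ => h1 x,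
    Fin.sum_univ_eq_sum_range (fun x => if N - 1 - d ≤ x then G x else 0) N]
  obtain ⟨c, hc⟩ : ∃ c, c = N - 1 - d := ⟨_, rfl⟩
  have hN : N = c + (d + 1) := by omega
  rw [← hc, hN, Finset.sum_range_add, Finset.sum_eq_zero, zero_add]
  · refine Finset.sum_congr rfl fun m _ => ?_
    rw [if_pos (by omega)]
  · intro x hx
    rw [Finset.mem_range] at hx
    rw [if_neg (by omega)]

/-- the entry of the square of the positive crossing -/
theorem crossP_sq (v : ℂ) (N : ℕ) (hbr : ∀ k : ℕ, 0 < k → k < N → br v k ≠ 0)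
    (c e k z : Fin N) (hz : (z : ℕ) = 0) (hce : (c : ℕ) + e = k) :
    (crossP N v * crossP N v) (c, e) (z, k) =
      v ^ (-((N : ℤ) - 1) * (1 + (k : ℕ)) + 2 * (c : ℕ) * (e : ℕ)) * v ^ ((c : ℕ) * ((c : ℕ) - 1) / 2) *
        (∏ t ∈ range c, br v ((N : ℤ) - (k : ℕ) + t)) * v ^ (-((N : ℤ) - 1) * (1 + (k : ℕ))) := by
  have hb0 : brf v 0 = 1 := by simp [brf]
  have hbk : brf v (k : ℕ) ≠ 0 := brf_ne hbr k.2
  have hbc : brf v (c : ℕ) ≠ 0 := brf_ne hbr c.2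
  rw [Matrix.mul_apply, Finset.sum_eq_single (k, z)]
  · have e1 : crossP N v (k, z) (z, k) = v ^ (-((N : ℤ) - 1) * (1 + (k : ℕ))) := by
      unfold crossP
      rw [if_pos ⟨by simp [hz], le_refl _⟩]
      simp only [hz, Nat.sub_self, hb0]
      simp [hbk]
    have e2 : crossP N v (c, e) (k, z) =
        v ^ (-((N : ℤ) - 1) * (1 + (k : ℕ)) + 2 * (c : ℕ) * (e : ℕ)) *
          v ^ ((c : ℕ) * ((c : ℕ) - 1) / 2) * (∏ t ∈ range c, br v ((N : ℤ) - (k : ℕ) + t)) := by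
      unfold crossP
      rw [if_pos ⟨by simp [hz, hce], by simp [hz]⟩]
      simp only [hz, Nat.sub_zero, hb0]
      simp [hbc]
    rw [e1, e2]
  · rintro ⟨s1, s2⟩ _ hs
    have : crossP N v (s1, s2) (z, k) = 0 := by
      unfold crossP
      rw [if_neg]
      rintro ⟨h1, h2⟩
      simp only at h1 h2
      apply hs
      rw [Prod.mk.injEq]
      exact ⟨Fin.ext (by omega), Fin.ext (by omega)⟩
    rw [this, mul_zero]
  · intro h; exact absurd (mem_univ _) h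

theorem tri (c : ℕ) : ((c * (c + 3) / 2 : ℕ) : ℤ) = ((c * (c - 1) / 2 : ℕ) : ℤ) + 2 * c ∧
    2 * ((c * (c - 1) / 2 : ℕ) : ℤ) = (c : ℤ) * c - c := by
  have h2 : 2 ∣ c * (c - 1) := by
    rcases Nat.even_or_odd c with h | h
    · exact Dvd.dvd.mul_right h.two_dvd _
    · rcases c with _ | c
      · simp
      · refine Dvd.dvd.mul_left ?_ _
        have : Even c := by
          rw [Nat.odd_iff] at h
          rw [Nat.even_iff]; omega
        simpa using this.two_dvd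
  obtain ⟨T, hT⟩ := h2
  have h3 : c * (c + 3) = 2 * (T + 2 * c) := by
    rcases c with _ | c
    · simp at hT ⊢
      exact hT
    · simp only [Nat.add_sub_cancel] at hT
      nlinarith
  rw [h3, hT, Nat.mul_div_cancel_left _ (by norm_num), Nat.mul_div_cancel_left _ (by norm_num)]
  refine ⟨by push_cast; ring, ?_⟩
  rcases c with _ | c
  · simp at hT ⊢
    exact hT
  · simp only [Nat.add_sub_cancel] at hT
    have : ((c : ℤ) + 1) * c = 2 * T := by exact_mod_cast hT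
    push_cast
    linarith

theorem termP (v : ℂ) (hv : v ≠ 0) (a : ℂ) (c m m' N : ℕ) (hN : N = c + m + m' + 1)
    (hb : ∀ n < N, brf v n ≠ 0) :
    cup N v (N - 1) / cup N v (N - 1 - m) *
      (v ^ (-((N : ℤ) - 1) * (1 + (c + m : ℕ)) + 2 * (c : ℕ) * (m : ℕ)) *
        v ^ ((c : ℕ) * ((c : ℕ) - 1) / 2) *
        (∏ t ∈ range c, br v ((N : ℤ) - (c + m : ℕ) + t)) *
        v ^ (-((N : ℤ) - 1) * (1 + (c + m : ℕ)))) *
      (a * ((-1) ^ (c + m) * (brf v (c + m) * brf v (N - 1 - m)) *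
        v ^ (((N : ℤ) - 2) * (c + m : ℕ) - (c + m : ℕ) ^ 2))) =
    ((-1) ^ (N - 1 - c) * v ^ (-((N : ℤ) - 1) * (c + 1) - ((c * (c + 3) / 2 : ℕ) : ℤ)) * brf v c *
      ((brf v (c + m) / (brf v c * brf v m)) *
      (brf v (N - 1 - m) / (brf v c * brf v (N - 1 - m - c))) * v ^ (-(2 * (m : ℤ) * N)))) *
      (a * ((-1) ^ (N - 1) * (brf v (N - 1) * brf v c) *
        v ^ (((N : ℤ) - 2) * (N - 1 : ℕ) - (N - 1 : ℕ) ^ 2))) := by
  obtain ⟨hT, hT2⟩ := tri c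
  rw [hT]
  generalize hTT : c * (c - 1) / 2 = T at hT hT2 ⊢
  have hP : ∏ t ∈ range c, br v ((N : ℤ) - (c + m : ℕ) + t) = brf v (m' + c) / brf v m' := by
    rw [eq_div_iff (hb _ (by omega)), brf_add, mul_comm]
    congr 1
    refine Finset.prod_congr rfl fun t _ => ?_
    congr 1
    rw [hN]
    push_cast
    ring
  rw [hP]
  have e1 : N - 1 = c + m + m' := by omega
  have e2 : N - 1 - m = m' + c := by omega
  have e3 : N - 1 - m - c = m' := by omega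
  have e4 : N - 1 - c = m + m' := by omega
  have e5 : N - 1 - (N - 1) = 0 := by omega
  have e6 : N - 1 - (m' + c) = m := by omega
  have h0 : brf v 0 = 1 := by simp [brf]
  unfold cup
  rw [e3, e4, e2, e5, e6, h0]
  rw [e1]
  have hk := hb (m' + c) (by omega)
  have hk1 := hb m (by omega)
  have hk2 := hb m' (by omega)
  have hk3 := hb c (by omega)
  have key : v ^ (((c + m + m' : ℕ) : ℤ) * ((N : ℤ) - 2 - (c + m + m' : ℕ))) *
      (v ^ (-((N : ℤ) - 1) * (1 + (c + m : ℕ)) + 2 * (c : ℕ) * (m : ℕ)) * v ^ T *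
        v ^ (-((N : ℤ) - 1) * (1 + (c + m : ℕ)))) *
        v ^ (((N : ℤ) - 2) * (c + m : ℕ) - (c + m : ℕ) ^ 2) =
      v ^ (-((N : ℤ) - 1) * (c + 1) - ((T : ℤ) + 2 * c)) * v ^ (-(2 * (m : ℤ) * N)) *
        v ^ (((N : ℤ) - 2) * (c + m + m' : ℕ) - (c + m + m' : ℕ) ^ 2) *
        v ^ (((m' + c : ℕ) : ℤ) * ((N : ℤ) - 2 - (m' + c : ℕ))) := by
    rw [← zpow_natCast v T]
    simp only [← zpow_add₀ hv]
    congr 1
    rw [hN]
    push_cast
    linear_combination hT2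
  have hx : v ^ (((m' + c : ℕ) : ℤ) * ((N : ℤ) - 2 - (m' + c : ℕ))) ≠ 0 := zpow_ne_zero _ hv
  generalize v ^ (((c + m + m' : ℕ) : ℤ) * ((N : ℤ) - 2 - (c + m + m' : ℕ))) = x1 at *
  generalize v ^ (-((N : ℤ) - 1) * (1 + (c + m : ℕ)) + 2 * (c : ℕ) * (m : ℕ)) = x2 at *
  generalize v ^ (-((N : ℤ) - 1) * (1 + (c + m : ℕ))) = x3 at *
  generalize v ^ (((N : ℤ) - 2) * (c + m : ℕ) - (c + m : ℕ) ^ 2) = x4 at *
  generalize v ^ (-((N : ℤ) - 1) * (c + 1) - ((T : ℤ) + 2 * c)) = x5 at *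
  generalize v ^ (-(2 * (m : ℤ) * N)) = x6 at *
  generalize v ^ (((N : ℤ) - 2) * (c + m + m' : ℕ) - (c + m + m' : ℕ) ^ 2) = x7 at *
  generalize v ^ (((m' + c : ℕ) : ℤ) * ((N : ℤ) - 2 - (m' + c : ℕ))) = x8 at *
  generalize v ^ T = x9 at *
  generalize brf v (m' + c) = b1 at *
  generalize brf v (c + m + m') = b2 at *
  generalize brf v (c + m) = b3 at *
  generalize brf v m = b4 at *
  generalize brf v m' = b5 at *
  generalize brf v c = b6 at *
  have sq : ∀ n : ℕ, ((-1 : ℂ) ^ n) * (-1) ^ n = 1 := fun n => by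
    rw [← mul_pow]; norm_num
  have s1 := sq c
  have s2 := sq m
  have s3 := sq m'
  have hs1 : ((-1 : ℂ) ^ c) ≠ 0 := by intro h; rw [h] at s1; simp at s1
  have hs2 : ((-1 : ℂ) ^ m) ≠ 0 := by intro h; rw [h] at s2; simp at s2
  have hs3 : ((-1 : ℂ) ^ m') ≠ 0 := by intro h; rw [h] at s3; simp at s3
  simp only [pow_add]
  generalize ((-1 : ℂ) ^ c) = y1 at *
  generalize ((-1 : ℂ) ^ m) = y2 at *
  generalize ((-1 : ℂ) ^ m') = y3 at *
  have f1 : y1 * y2 * y3 * (b2 * 1) * x1 / (y3 * y1 * (b1 * b4) * x8) * (x2 * x9 * (b1 / b5) * x3) *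
      (a * (y1 * y2 * (b3 * b1) * x4)) =
      (a * b2 * b3 * b1 / (b4 * b5)) * (y1 * (y2 * y2)) * (x1 * (x2 * x9 * x3) * x4) / x8 := by
    field_simp
  have f2 : y2 * y3 * x5 * b6 * (b3 / (b6 * b4) * (b1 / (b6 * b5)) * x6) *
      (a * (y1 * y2 * y3 * (b2 * b6) * x7)) =
      (a * b2 * b3 * b1 / (b4 * b5)) * (y1 * (y2 * y2) * (y3 * y3)) * (x5 * x6 * x7 * x8) / x8 := by
    field_simp
  rw [f1, f2, key, s3, mul_one]

theorem sumlem' (N d : ℕ) (hd : d < N) (F : Fin N × Fin N → ℂ) (G : ℕ → ℂ)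
    (h : ∀ q, F q = if (q.1 : ℕ) + q.2 + d + 2 = 2 * N then G q.1 else 0) :
    ∑ q : Fin N × Fin N, F q = ∑ m ∈ range (d + 1), G (N - 1 - d + m) := by
  rw [Finset.sum_congr rfl fun q _ => h q]
  exact sumlem N d hd G

noncomputable def GP (N : ℕ) (v a : ℂ) (c k : ℕ) : ℂ :=
  cup N v (N - 1) / cup N v (N - 1 - (k - c)) *
      (v ^ (-((N : ℤ) - 1) * (1 + k) + 2 * c * ((k - c : ℕ) : ℤ)) *
        v ^ (c * (c - 1) / 2) *
        (∏ t ∈ range c, br v ((N : ℤ) - (k : ℕ) + t)) *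
        v ^ (-((N : ℤ) - 1) * (1 + (k : ℕ)))) *
      (a * ((-1) ^ k * (brf v k * brf v (N - 1 - (k - c))) *
        v ^ (((N : ℤ) - 2) * (k : ℕ) - (k : ℕ) ^ 2)))

theorem lowest {N : ℕ} {v : ℂ} (hbr : ∀ k : ℕ, 0 < k → k < N → br v k ≠ 0) (hv : v ≠ 0)
    {n : ℕ} (R : Matrix (Fin N × Fin N) (Fin N × Fin N) ℂ)
    (B : Matrix (Fin N × Fin N) (Fin n) ℂ) (j : Fin n) (d : Fin N) (a : ℂ)
    (hR : R = rot N v (crossP N v * crossP N v))
    (hB : ∀ p : Fin N × Fin N, B p j = if (p.1 : ℕ) + p.2 + d + 2 = 2 * N then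
      a * ((-1) ^ (p.1 : ℕ) * (brf v p.1 * brf v p.2) *
        v ^ (((N : ℤ) - 2) * (p.1 : ℕ) - (p.1 : ℕ) ^ 2)) else 0)
    (p : Fin N × Fin N) (hp1 : (p.1 : ℕ) = N - 1) (hp2 : (p.2 : ℕ) = N - 1 - d) :
    (R * B) p j = kapP N v (N - 1 - d) * B p j := by
  obtain ⟨⟨p1, h1⟩, ⟨p2, h2⟩⟩ := p
  simp only at hp1 hp2
  subst hp1
  subst hp2
  have hd := d.2
  rw [Matrix.mul_apply]
  have hf : ∀ q : Fin N × Fin N, R (⟨N - 1, h1⟩, ⟨N - 1 - d, h2⟩) q * B q j =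
      if (q.1 : ℕ) + q.2 + d + 2 = 2 * N then
        GP N v a (N - 1 - d) q.1 else 0 := by
    rintro ⟨⟨k, hk⟩, ⟨l, hl⟩⟩
    rw [hB]
    simp only
    by_cases h : k + l + d + 2 = 2 * N
    · rw [if_pos h, if_pos h, hR]
      unfold rot
      simp only
      rw [crossP_sq v N hbr ⟨N - 1 - d, h2⟩ (Fin.rev ⟨l, hl⟩) ⟨k, hk⟩ (Fin.rev ⟨N - 1, h1⟩)
        (by simp [Fin.rev]; omega) (by simp [Fin.rev]; omega)]
      have e1 : N - 1 - (k - (N - 1 - d)) = l := by omega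
      have e2 : ((Fin.rev ⟨l, hl⟩ : Fin N) : ℕ) = k - (N - 1 - d) := by
        simp [Fin.rev]; omega
      unfold GP
      rw [e1, e2]
    · rw [if_neg h, if_neg h, mul_zero]
  rw [sumlem' N d hd _ _ hf, hB, if_pos (by simp only; omega)]
  unfold kapP
  have hNd : N - (N - 1 - d) = d + 1 := by omega
  rw [hNd, mul_comm _ (∑ m ∈ range (d + 1), _), Finset.sum_mul, Finset.sum_mul]
  refine Finset.sum_congr rfl fun m hm => ?_
  rw [Finset.mem_range] at hm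
  have := termP v hv a (N - 1 - d) m (d - m) N (by omega) (fun n hn => brf_ne hbr hn)
  unfold GP
  simp only [Nat.add_sub_cancel_left] at this ⊢
  rw [this]
  ring

theorem SKAPP : S_KAPP := by
  intro hrot hvec u hu N φ ψ hD d
  have hv : u ^ 2 ≠ 0 := pow_ne_zero 2 hu.1
  have hbr : ∀ k : ℕ, 0 < k → k < N → br (u ^ 2) k ≠ 0 := fun k hk _ => hu.2 k hk
  obtain ⟨h1, h2, _⟩ := hvec u hu N φ ψ hD d
  have hI := Pool.Agent.H309R4.Jones.isInt_mul (crossP_int hu N) (crossP_int hu N)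
  obtain ⟨r, hr⟩ := h1 _ (hrot N (u ^ 2) hv hbr _ hI)
  obtain ⟨a, ha, hφ⟩ := h2
  have hd := d.2
  have hcc : 0 < cc N d := by unfold cc; omega
  have hj : cc N d - 1 + 1 = cc N d := by omega
  have hlow := lowest hbr hv _ (φ d) ⟨cc N d - 1, by omega⟩ d a rfl
    (fun p => hφ p ⟨cc N d - 1, by omega⟩ hj) (⟨N - 1, by omega⟩, ⟨N - 1 - d, by omega⟩) rfl rfl
  have hne : φ d (⟨N - 1, by omega⟩, ⟨N - 1 - d, by omega⟩) ⟨cc N d - 1, by omega⟩ ≠ 0 := by
    rw [hφ _ _ hj, if_pos (by simp only; omega)]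
    refine mul_ne_zero ha (mul_ne_zero (mul_ne_zero ?_ (mul_ne_zero ?_ ?_)) (zpow_ne_zero _ hv))
    · exact pow_ne_zero _ (by norm_num)
    · exact brf_ne hbr (by simp only; omega)
    · exact brf_ne hbr (by simp only; omega)
  rw [hr] at hlow ⊢
  rw [Matrix.smul_apply, smul_eq_mul] at hlow
  rw [mul_right_cancel₀ hne hlow]

end Pool.Agent.W272.BSK
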